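import Pool.Agent.Lib.MP_6bc78b_nt.GP.Iface

/-! Project GP5 (MP_6bc78b_nt): gaps between simple zeros under RH, sharper form.
Statements of the new rows (compare `GP/Iface.lean`). -/

set_option autoImplicit false

open Complex Filter Topology MeasureTheory ArithmeticFunction Set
open scoped ENNReal

namespace Pool.Agent.Lib.MP_6bc78b_nt.GP

open Pool.Agent.Lib.MP_6bc78b_nt.MS Pool.Agent.Lib.MP_6bc78b_nt.MS.P1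

/-- DMS5: `DMSStatement` with `(log T)^5`. -/
def DMS5Statement : Prop := RiemannHypothesis → ∀ (A B : ℝ) (D : ℂ → ℂ), IsD A B D →
  ∃ C T0 : ℝ, 0 < C ∧ 10 < T0 ∧ ∀ T κ φ : ℝ, T0 ≤ T → 1 / T ^ 2 ≤ κ → κ ≤ 1 →
    |φ| ≤ Real.pi / 2 - κ →
    Integrable (fun w : ℝ => ‖D (cT T + w * I) * Complex.Gamma (cT T + w * I)‖ ^ 2 *
      Real.exp (2 * φ * w)) ∧
    ∫ w : ℝ, ‖D (cT T + w * I) * Complex.Gamma (cT T + w * I)‖ ^ 2 * Real.exp (2 * φ * w) ≤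
      C * Real.log T ^ 5 / κ

/-- RAY5: `RAYStatement` with `(log T)^5`. -/
def RAY5Statement : Prop := RiemannHypothesis → ∀ (A B : ℝ) (D : ℂ → ℂ), IsD A B D →
  ∃ C T0 : ℝ, 0 < C ∧ 10 < T0 ∧ ∀ T κ φ : ℝ, T0 ≤ T → 1 / T ^ 2 ≤ κ → κ ≤ 1 →
    |φ| ≤ Real.pi / 2 - κ →
    ∫⁻ r in Ioi (0 : ℝ), ENNReal.ofReal (‖EE A B (r * Complex.exp (φ * I))‖ ^ 2 *
      r ^ (2 * cT T - 1)) ≤ ENNReal.ofReal (C * Real.log T ^ 5 / κ)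

/-- ARE5: `AREStatement` with `(log T)^5`. -/
def ARE5Statement : Prop := RiemannHypothesis → ∀ (A B : ℝ) (D : ℂ → ℂ), IsD A B D →
  ∀ a b R κ₀ : ℝ, 0 < a → a < b → 0 < R → 0 < κ₀ →
  ∃ C T0 : ℝ, 0 < C ∧ 10 < T0 ∧ ∀ T H : ℝ, T0 ≤ T → 1 ≤ H → H ≤ T →
    ∫⁻ z in {z : ℂ | a / T ≤ z.re ∧ z.re ≤ b / T ∧ |z.im| ≤ R},
      ENNReal.ofReal (‖EE A B z‖ ^ 2 * Real.exp (-(κ₀ * H ^ 2 * z.im ^ 2))) ≤
      ENNReal.ofReal (C * Real.log T ^ 5 / H)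

/-- AVGW (from ARE5, CHV, ETR, DX2): a good `δ` for the weight `e^(-H² u² + u) / (1 + lam² u²)`. -/
def AVGWStatement : Prop := RiemannHypothesis → ∀ (A B : ℝ) (D : ℂ → ℂ), IsD A B D →
  ∃ C T0 : ℝ, 0 < C ∧ 10 < T0 ∧ ∀ T H lam : ℝ, T0 ≤ T → 10 * Real.sqrt (Real.log T) ≤ H →
    H ≤ lam → lam ≤ T →
    ∃ δ ∈ Icc (1 / T) (2 / T),
      ∫⁻ u : ℝ, ENNReal.ofReal (‖EE A B (zp u δ)‖ ^ 2 * Real.exp (-(H ^ 2 * u ^ 2) + u) /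
        (1 + lam ^ 2 * u ^ 2)) ≤ ENNReal.ofReal (C * T * Real.log T ^ 5 / lam)

/-- BOX (from PLC, ETR): Plancherel for the averages of `S_E` over intervals. -/
def BOXStatement : Prop := ∀ A B δ H lam : ℝ, 0 < δ → δ ≤ 1 / 2 → 0 < H → 0 < lam →
  ∫⁻ t : ℝ, ENNReal.ofReal (‖∫ x in (t - lam)..(t + lam), SE A B δ H x‖ ^ 2) ≤
    ENNReal.ofReal (8 * lam ^ 2 * H ^ 2) *
      ∫⁻ u : ℝ, ENNReal.ofReal (‖EE A B (zp u δ)‖ ^ 2 * Real.exp (-(H ^ 2 * u ^ 2) + u) /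
        (1 + lam ^ 2 * u ^ 2))

/-- LFTR: `LFTStatement` for the real part. -/
def LFTRStatement : Prop := ∀ A B : ℝ, ∃ c C1 T0 : ℝ, 0 < c ∧ 1 ≤ C1 ∧ 10 < T0 ∧
  ∀ T t δ H : ℝ, T0 ≤ T → T ≤ t → t ≤ 2 * T → 1 / T ≤ δ → δ ≤ 2 / T → C1 ≤ H →
    H ≤ T / Real.log T → c * H * Real.log T ^ 2 ≤ (IL A B T δ H t).re

/-- CHB5 (from DX1, AVGW, BOX, CON, LFTR, TLS): the measure of the centres without simple zeros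
within `2 lam`. -/
def CHB5Statement : Prop := RiemannHypothesis → ∃ C C0 T0 : ℝ, 0 < C ∧ 1 ≤ C0 ∧ 10 < T0 ∧
  ∀ T lam : ℝ, T0 ≤ T → C0 * Real.log T ≤ lam → lam ≤ T / 10 →
    volume {t : ℝ | T ≤ t ∧ t ≤ 2 * T ∧ ∀ γ : ℝ, |γ - t| < 2 * lam → mz γ ≠ 1} ≤
      ENNReal.ofReal (C * T * Real.log T / lam)

/-- FIN5 (from CHB5): the theorem. -/
def GapStatement5 : Prop := RiemannHypothesis → ∃ C : ℝ, 0 < C ∧ ∀ T : ℝ, 2 ≤ T →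
  ∀ (n : ℕ) (a b : Fin n → ℝ), (∀ i, 0 ≤ a i ∧ a i ≤ b i ∧ b i ≤ T) →
    (∀ i j, i ≠ j → Disjoint (Ioo (a i) (b i)) (Ioo (a j) (b j))) →
    (∀ i, ∀ γ ∈ Ioo (a i) (b i), zeroMult γ ≠ 1) →
      ∑ i, (b i - a i) ^ 2 ≤ C * T * Real.log T ^ 2 ∧
      ∀ h : ℝ, 0 < h → (∀ i, h ≤ b i - a i) → ∑ i, (b i - a i) ≤ C * T * Real.log T / h

end Pool.Agent.Lib.MP_6bc78b_nt.GP
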