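import Pool.Agent.Lib.MP_6bc78b_nt.GP.H13.Are
import Pool.Agent.Lib.MP_6bc78b_nt.GP.H6.Defs5

/-! Project GP5, module ARE5: the area integral in polar coordinates (as `H13/Are.lean`). -/

set_option autoImplicit false

open MeasureTheory Complex Filter Topology Set
open scoped ENNReal

namespace Pool.Agent.Lib.MP_6bc78b_nt.GP.H6

open Pool.Agent.Lib.MP_6bc78b_nt.GP.H13


/-- The inner integral over a ray. -/
lemma inner5 {A B a b R κ₀ K C1 T H φ : ℝ} (ha : 0 < a) (hκ₀ : 0 < κ₀) (hK : 0 < K)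
    (hC1 : 0 < C1) (hT : 100 ≤ T) (hTR : 2 * R ≤ a * T) (hH : 0 < H) (hφ : |φ| < Real.pi / 2)
    (hKr : ∀ κ r : ℝ, 0 < κ → κ ≤ 1 → 0 < r → r ≤ b * (Real.pi / 2) / (T * κ) →
      r ≤ r ^ (2 * cT T - 1) * (K / (T * κ)))
    (hray : ∀ κ : ℝ, 1 / T ^ 2 ≤ κ → κ ≤ 1 → |φ| ≤ Real.pi / 2 - κ →
      ∫⁻ r in Ioi (0 : ℝ), ENNReal.ofReal (‖EE A B (r * Complex.exp (φ * I))‖ ^ 2 *
        r ^ (2 * cT T - 1)) ≤ ENNReal.ofReal (C1 * Real.log T ^ 5 / κ)) :
    ∫⁻ r in Ioi (0 : ℝ), ENNReal.ofReal r * (St a b R T).indicator (gg A B κ₀ H)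
      ((r : ℂ) * (Real.cos φ + Real.sin φ * I)) ≤
    ENNReal.ofReal (K * C1 * Real.log T ^ 5 / T *
      (1 + 1 / ((Real.pi / 2 - |φ|) ^ 2 + (Real.sqrt κ₀ * H * a / (2 * T)) ^ 2))) := by
  set k : ℝ := Real.pi / 2 - |φ| with hk
  have hk0 : 0 < k := by rw [hk]; linarith
  have hT0 : 0 < T := by linarith
  have hL : 0 < Real.log T := by linarith [log_ge_four hT]
  set Y : ℝ := Real.sqrt κ₀ * H * a / (2 * T) with hY
  have hY0 : 0 < Y := by rw [hY]; positivity
  have hexp : ∀ r : ℝ, (r : ℂ) * (Real.cos φ + Real.sin φ * I) = r * Complex.exp (φ * I) := by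
    intro r
    rw [Complex.exp_mul_I]
    push_cast
    ring
  by_cases hsmall : k < 1 / T ^ 2
  · -- nothing in the strip
    have h0 : ∀ r ∈ Ioi (0 : ℝ), ENNReal.ofReal r * (St a b R T).indicator (gg A B κ₀ H)
        ((r : ℂ) * (Real.cos φ + Real.sin φ * I)) = 0 := by
      intro r hr
      rw [Set.indicator_of_notMem, mul_zero]
      intro hz
      obtain ⟨_, h2⟩ := ray_facts ha hT0 hr hφ hz
      have hk1 : k ≤ 1 := by
        have : 1 / T ^ 2 ≤ 1 := by
          rw [div_le_one (by positivity)]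
          nlinarith
        linarith
      have h3 := (h2 hk1).2
      rw [← hk, div_le_iff₀ (by positivity)] at h3
      have h4 : k * T ^ 2 < 1 := by
        rwa [lt_div_iff₀ (by positivity)] at hsmall
      have h5 : R * (2 * T * k) ≤ a * T * (T * k) := by
        have := mul_le_mul_of_nonneg_right hTR (by positivity : 0 ≤ T * k)
        linarith
      have h6 : a * T * (T * k) = a * (k * T ^ 2) := by ring
      have h7 : a * (k * T ^ 2) < a * 1 := mul_lt_mul_of_pos_left h4 ha
      linarith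
    rw [setLIntegral_congr_fun measurableSet_Ioi h0]
    simp
  rw [not_lt] at hsmall
  set κ : ℝ := min k 1 with hκ
  have hκ0 : 0 < κ := lt_min hk0 one_pos
  have hκ1 : κ ≤ 1 := min_le_right _ _
  have hκT : 1 / T ^ 2 ≤ κ := by
    apply le_min hsmall
    rw [div_le_one (by positivity)]
    nlinarith
  have hφκ : |φ| ≤ Real.pi / 2 - κ := by
    have : κ ≤ k := min_le_left _ _
    rw [hk] at this; linarith
  -- the weight
  set w : ℝ := if k ≤ 1 then Real.exp (-(Y ^ 2 / k ^ 2)) else 1 with hw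
  have hw0 : 0 ≤ w := by rw [hw]; split_ifs <;> positivity
  have hpt : ∀ r ∈ Ioi (0 : ℝ), ENNReal.ofReal r * (St a b R T).indicator (gg A B κ₀ H)
      ((r : ℂ) * (Real.cos φ + Real.sin φ * I)) ≤
      ENNReal.ofReal (K / (T * κ) * w) * ENNReal.ofReal (‖EE A B (r * Complex.exp (φ * I))‖ ^ 2 *
        r ^ (2 * cT T - 1)) := by
    intro r hr
    have hr0 : 0 < r := hr
    by_cases hz : ((r : ℂ) * (Real.cos φ + Real.sin φ * I)) ∈ St a b R T
    · rw [Set.indicator_of_mem hz, ← ENNReal.ofReal_mul (by positivity)]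
      unfold gg
      rw [← ENNReal.ofReal_mul hr0.le]
      apply ENNReal.ofReal_le_ofReal
      obtain ⟨h1, h2⟩ := ray_facts ha hT0 hr0 hφ hz
      have h3 := hKr κ r hκ0 hκ1 hr0 h1
      have him : ((r : ℂ) * (Real.cos φ + Real.sin φ * I)).im = r * Real.sin φ := by
        simp only [Complex.mul_re, Complex.add_re, Complex.ofReal_re, Complex.ofReal_im,
          Complex.add_im, Complex.mul_im, Complex.I_re, Complex.I_im]
        ring
      rw [him, hexp r]
      have h4 : Real.exp (-(κ₀ * H ^ 2 * (r * Real.sin φ) ^ 2)) ≤ w := by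
        rw [hw]
        split_ifs with hk1
        · apply Real.exp_le_exp.2
          have h5 := (h2 hk1).1
          have h6 : (a / (2 * T * k)) ^ 2 ≤ (r * Real.sin φ) ^ 2 := by
            rw [← sq_abs (r * Real.sin φ)]
            exact pow_le_pow_left₀ (by positivity) h5 2
          have h7 : Y ^ 2 / k ^ 2 = κ₀ * H ^ 2 * (a / (2 * T * k)) ^ 2 := by
            rw [hY]
            rw [div_pow, mul_pow, mul_pow, Real.sq_sqrt hκ₀.le]
            field_simp
          rw [h7]
          have := mul_le_mul_of_nonneg_left h6 (by positivity : 0 ≤ κ₀ * H ^ 2)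
          linarith
        · rw [Real.exp_le_one_iff]
          have : 0 ≤ κ₀ * H ^ 2 * (r * Real.sin φ) ^ 2 := by positivity
          linarith
      have hE : 0 ≤ ‖EE A B (r * Complex.exp (φ * I))‖ ^ 2 := by positivity
      have hrp : 0 ≤ r ^ (2 * cT T - 1) := Real.rpow_nonneg hr0.le _
      calc r * (‖EE A B (r * Complex.exp (φ * I))‖ ^ 2 *
            Real.exp (-(κ₀ * H ^ 2 * (r * Real.sin φ) ^ 2)))
          ≤ (r ^ (2 * cT T - 1) * (K / (T * κ))) *
              (‖EE A B (r * Complex.exp (φ * I))‖ ^ 2 * w) := by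
            apply mul_le_mul h3 (mul_le_mul_of_nonneg_left h4 hE)
              (mul_nonneg hE (Real.exp_pos _).le)
            exact mul_nonneg hrp (by positivity)
        _ = _ := by ring
    · rw [Set.indicator_of_notMem hz, mul_zero]
      exact zero_le
  calc ∫⁻ r in Ioi (0 : ℝ), ENNReal.ofReal r * (St a b R T).indicator (gg A B κ₀ H)
        ((r : ℂ) * (Real.cos φ + Real.sin φ * I))
      ≤ ∫⁻ r in Ioi (0 : ℝ), ENNReal.ofReal (K / (T * κ) * w) *
          ENNReal.ofReal (‖EE A B (r * Complex.exp (φ * I))‖ ^ 2 * r ^ (2 * cT T - 1)) :=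
        setLIntegral_mono' measurableSet_Ioi hpt
    _ = ENNReal.ofReal (K / (T * κ) * w) * ∫⁻ r in Ioi (0 : ℝ),
          ENNReal.ofReal (‖EE A B (r * Complex.exp (φ * I))‖ ^ 2 * r ^ (2 * cT T - 1)) :=
        lintegral_const_mul' _ _ ENNReal.ofReal_ne_top
    _ ≤ ENNReal.ofReal (K / (T * κ) * w) * ENNReal.ofReal (C1 * Real.log T ^ 5 / κ) := by
        gcongr
        exact hray κ hκT hκ1 hφκ
    _ = ENNReal.ofReal (K / (T * κ) * w * (C1 * Real.log T ^ 5 / κ)) :=
        (ENNReal.ofReal_mul (by positivity)).symm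
    _ ≤ _ := by
        apply ENNReal.ofReal_le_ofReal
        have h8 : K / (T * κ) * w * (C1 * Real.log T ^ 5 / κ) =
            K * C1 * Real.log T ^ 5 / T * (w / κ ^ 2) := by
          field_simp
        rw [h8]
        apply mul_le_mul_of_nonneg_left _ (by positivity)
        rw [hw]
        split_ifs with hk1
        · rw [hκ, min_eq_left hk1]
          have := exp_cauchy hk0 hY0
          linarith
        · rw [hκ, min_eq_right (by linarith)]
          have : 0 ≤ 1 / (k ^ 2 + Y ^ 2) := by positivity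
          linarith

theorem are5 (hR : RAY5Statement) : ARE5Statement := by
  intro hRH A B D hD a b R κ₀ ha hab hR0 hκ₀
  obtain ⟨C1, T1, hC1, hT1, hray⟩ := hR hRH A B D hD
  obtain ⟨K, hK, hKr⟩ := rpow_bd b (ha.trans hab)
  have hs : 0 < Real.sqrt κ₀ := Real.sqrt_pos.2 hκ₀
  refine ⟨K * C1 * (2 * Real.pi + 4 * Real.pi / (Real.sqrt κ₀ * a)), max (max T1 100) (2 * R / a),
    by positivity, ?_, ?_⟩
  · exact lt_of_lt_of_le (by norm_num) ((le_max_right T1 100).trans (le_max_left _ _))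
  intro T H hT hH1 hHT
  have hT1' : T1 ≤ T := ((le_max_left T1 100).trans (le_max_left _ _)).trans hT
  have hT100 : 100 ≤ T := ((le_max_right T1 100).trans (le_max_left _ _)).trans hT
  have hTR : 2 * R ≤ a * T := by
    have := (le_max_right (max T1 100) (2 * R / a)).trans hT
    rw [div_le_iff₀ ha] at this
    linarith
  have hT0 : 0 < T := by linarith
  have hH0 : 0 < H := by linarith
  have hL : 0 < Real.log T := by linarith [log_ge_four hT100]
  set Y : ℝ := Real.sqrt κ₀ * H * a / (2 * T) with hY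
  have hY0 : 0 < Y := by rw [hY]; positivity
  set Cc : ℝ := K * C1 * Real.log T ^ 5 / T with hCc
  have hCc0 : 0 < Cc := by rw [hCc]; positivity
  have hinner : ∀ φ : ℝ, φ ∈ Ioo (-Real.pi) Real.pi →
      ∫⁻ r in Ioi (0 : ℝ), ENNReal.ofReal r * (St a b R T).indicator (gg A B κ₀ H)
      ((r : ℂ) * (Real.cos φ + Real.sin φ * I)) ≤
      ENNReal.ofReal Cc * (1 + (ENNReal.ofReal (1 / ((φ - Real.pi / 2) ^ 2 + Y ^ 2)) +
        ENNReal.ofReal (1 / ((φ + Real.pi / 2) ^ 2 + Y ^ 2)))) := by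
    intro φ hφ
    rcases lt_or_ge |φ| (Real.pi / 2) with h | h
    · refine (inner5 ha hκ₀ hK hC1 hT100 hTR hH0 h (fun κ r => hKr T κ r hT100) (fun κ h1 h2 h3 =>
        hray T κ φ hT1' h1 h2 h3)).trans ?_
      rw [ENNReal.ofReal_mul hCc0.le]
      gcongr
      rw [show (1 : ℝ≥0∞) = ENNReal.ofReal 1 by simp, ← ENNReal.ofReal_add (by positivity)
        (by positivity), ← ENNReal.ofReal_add (by norm_num) (by positivity)]
      apply ENNReal.ofReal_le_ofReal
      have := two_kernels (φ := φ) hY0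
      linarith
    · rw [inner_zero ha hT0 h (abs_lt.2 ⟨hφ.1, hφ.2⟩)]
      exact zero_le
  have hpolar : ∫⁻ z in St a b R T, gg A B κ₀ H z ≤
      ∫⁻ φ in Ioo (-Real.pi) Real.pi, ∫⁻ r in Ioi (0 : ℝ), ENNReal.ofReal r *
        (St a b R T).indicator (gg A B κ₀ H) ((r : ℂ) * (Real.cos φ + Real.sin φ * I)) := by
    rw [← lintegral_indicator (St_meas a b R T), ← Complex.lintegral_comp_polarCoord_symm]
    rw [show polarCoord.target = Ioi (0 : ℝ) ×ˢ Ioo (-Real.pi) Real.pi from rfl]
    rw [show (volume : Measure (ℝ × ℝ)) = volume.prod volume from rfl, ← Measure.prod_restrict]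
    rw [← lintegral_prod_swap]
    refine (lintegral_prod_le _).trans (le_of_eq ?_)
    apply lintegral_congr
    intro φ
    apply lintegral_congr
    intro r
    simp only [Prod.swap_prod_mk, smul_eq_mul, Complex.polarCoord_symm_apply]
  have hshift : ∀ c : ℝ, ∫⁻ φ : ℝ, ENNReal.ofReal (1 / ((φ + c) ^ 2 + Y ^ 2)) =
      ENNReal.ofReal (Real.pi / Y) := by
    intro c
    rw [← lint_cauchy hY0]
    exact lintegral_add_right_eq_self (fun x => ENNReal.ofReal (1 / (x ^ 2 + Y ^ 2))) c
  have hmeas : ∀ c : ℝ, Measurable (fun φ : ℝ => ENNReal.ofReal (1 / ((φ + c) ^ 2 + Y ^ 2))) := by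
    intro c; fun_prop
  calc ∫⁻ z in {z : ℂ | a / T ≤ z.re ∧ z.re ≤ b / T ∧ |z.im| ≤ R},
      ENNReal.ofReal (‖EE A B z‖ ^ 2 * Real.exp (-(κ₀ * H ^ 2 * z.im ^ 2)))
      = ∫⁻ z in St a b R T, gg A B κ₀ H z := rfl
    _ ≤ _ := hpolar
    _ ≤ ∫⁻ φ in Ioo (-Real.pi) Real.pi, ENNReal.ofReal Cc *
          (1 + (ENNReal.ofReal (1 / ((φ - Real.pi / 2) ^ 2 + Y ^ 2)) +
        ENNReal.ofReal (1 / ((φ + Real.pi / 2) ^ 2 + Y ^ 2)))) :=
        setLIntegral_mono' measurableSet_Ioo hinner
    _ = ENNReal.ofReal Cc * ∫⁻ φ in Ioo (-Real.pi) Real.pi,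
          (1 + (ENNReal.ofReal (1 / ((φ - Real.pi / 2) ^ 2 + Y ^ 2)) +
        ENNReal.ofReal (1 / ((φ + Real.pi / 2) ^ 2 + Y ^ 2)))) :=
        lintegral_const_mul' _ _ ENNReal.ofReal_ne_top
    _ ≤ ENNReal.ofReal Cc * (ENNReal.ofReal (2 * Real.pi) + (ENNReal.ofReal (Real.pi / Y) +
          ENNReal.ofReal (Real.pi / Y))) := by
        gcongr
        have hm1 := hmeas (-(Real.pi / 2))
        have hm2 := hmeas (Real.pi / 2)
        rw [lintegral_add_left measurable_const, lintegral_add_left (by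
          simpa only [sub_eq_add_neg] using hm1)]
        gcongr
        · rw [setLIntegral_const, Real.volume_Ioo, one_mul]
          apply le_of_eq
          congr 1
          ring
        · refine (setLIntegral_le_lintegral _ _).trans (le_of_eq ?_)
          have := hshift (-(Real.pi / 2))
          simpa only [sub_eq_add_neg] using this
        · exact (setLIntegral_le_lintegral _ _).trans (le_of_eq (hshift (Real.pi / 2)))
    _ = ENNReal.ofReal (Cc * (2 * Real.pi + (Real.pi / Y + Real.pi / Y))) := by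
        rw [← ENNReal.ofReal_add (by positivity) (by positivity),
          ← ENNReal.ofReal_add (by positivity) (by positivity), ← ENNReal.ofReal_mul hCc0.le]
    _ ≤ _ := by
        apply ENNReal.ofReal_le_ofReal
        have hX : 0 < K * C1 * Real.log T ^ 5 := by positivity
        have h1 : Cc * (2 * Real.pi + (Real.pi / Y + Real.pi / Y)) =
            K * C1 * Real.log T ^ 5 * (2 * Real.pi / T + 4 * Real.pi / (Real.sqrt κ₀ * a) / H) := by
          rw [hCc, hY]
          field_simp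
          ring
        have h2 : K * C1 * (2 * Real.pi + 4 * Real.pi / (Real.sqrt κ₀ * a)) * Real.log T ^ 5 / H =
            K * C1 * Real.log T ^ 5 * (2 * Real.pi / H + 4 * Real.pi / (Real.sqrt κ₀ * a) / H) := by
          ring
        rw [h1, h2]
        apply mul_le_mul_of_nonneg_left _ hX.le
        have h3 : 2 * Real.pi / T ≤ 2 * Real.pi / H :=
          div_le_div_of_nonneg_left (by positivity) hH0 hHT
        linarith

end Pool.Agent.Lib.MP_6bc78b_nt.GP.H6
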