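import Pool.Agent.Lib.MP_6bc78b_nt.MS.GL.H84.Pfr
import Pool.Agent.Lib.MP_6bc78b_nt.MS.GL.H5.Xgr
import Pool.Agent.Lib.MP_6bc78b_nt.H11.Light

/-! Project GP5: the derivative of `ζ'/ζ` near the critical line under RH (Schwarz-Pick). -/

set_option autoImplicit false

open Complex Filter Topology MeasureTheory Set

namespace Pool.Agent.Lib.MP_6bc78b_nt.GP.H6

open Pool.Agent.Lib.MP_6bc78b_nt Pool.Agent.Lib.MP_6bc78b_nt.LL Pool.Agent.Lib.MP_6bc78b_nt.H11
  Pool.Agent.Lib.MP_6bc78b_nt.MS Pool.Agent.Lib.MP_6bc78b_nt.MS.P1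
  Pool.Agent.Lib.MP_6bc78b_nt.MS.GL

lemma one_le_log (y : ℝ) : 1 ≤ Real.log (3 + |y|) := by
  have h := abs_nonneg y
  rw [Real.le_log_iff_exp_le (by positivity)]
  have := Real.exp_one_lt_d9
  linarith

lemma gPart_bd : ∃ C : ℝ, 0 < C ∧ ∀ s : ℂ, 1 / 2 ≤ s.re → s.re ≤ 3 / 4 →
    ‖gPart s‖ ≤ C * Real.log (3 + |s.im|) := by
  obtain ⟨C₁, hC₁, h1⟩ := exists_gPart_light
  have hK : IsCompact ((Icc (1 / 2 : ℝ) (3 / 4)) ×ℂ (Icc (-8 : ℝ) 8)) :=
    isCompact_Icc.reProdIm isCompact_Icc
  have ho : IsOpen {z : ℂ | 0 < z.re} := isOpen_lt continuous_const Complex.continuous_re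
  have hG : DifferentiableOn ℂ Gammaℝ {z : ℂ | 0 < z.re} := fun z hz =>
    (differentiableAt_Gammaℝ hz).differentiableWithinAt
  have hG' : ContinuousOn (deriv Gammaℝ) {z : ℂ | 0 < z.re} := (hG.deriv ho).continuousOn
  have hcont : ContinuousOn gPart ((Icc (1 / 2 : ℝ) (3 / 4)) ×ℂ (Icc (-8 : ℝ) 8)) := by
    have hsub : ((Icc (1 / 2 : ℝ) (3 / 4)) ×ℂ (Icc (-8 : ℝ) 8)) ⊆ {z : ℂ | 0 < z.re} := by
      intro z hz
      have := (Complex.mem_reProdIm.1 hz).1.1
      show 0 < z.re
      linarith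
    have e : gPart = fun s => 1 / s + 1 / (s - 1) + deriv Gammaℝ s / Gammaℝ s := by
      funext s
      rw [gPart, logDeriv_apply]
    rw [e]
    refine ((ContinuousOn.div continuousOn_const continuousOn_id ?_).add
      (ContinuousOn.div continuousOn_const (continuousOn_id.sub continuousOn_const) ?_)).add
      ((hG'.mono hsub).div (hG.continuousOn.mono hsub) ?_)
    · intro z hz h0
      have h2 : 0 < z.re := hsub hz
      have h3 : z = 0 := h0
      rw [h3] at h2
      simp at h2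
    · intro z hz h0
      have h2 := (Complex.mem_reProdIm.1 hz).1.2
      have : z = 1 := sub_eq_zero.1 h0
      rw [this] at h2
      norm_num at h2
    · intro z hz
      exact Gammaℝ_ne_zero_of_re_pos (hsub hz)
  obtain ⟨C₂, hC₂⟩ := hK.exists_bound_of_continuousOn hcont
  refine ⟨C₁ + |C₂| + 1, by positivity, fun s hs1 hs2 => ?_⟩
  have hl := one_le_log s.im
  by_cases h8 : 8 ≤ |s.im|
  · have h3 := h1 s hs1 (by linarith) h8
    have h4 : Real.log |s.im| ≤ Real.log (3 + |s.im|) :=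
      Real.log_le_log (by linarith) (by linarith)
    have h5 : 0 ≤ |C₂| := abs_nonneg _
    nlinarith
  · push Not at h8
    have h3 := hC₂ s (Complex.mem_reProdIm.2 ⟨⟨hs1, hs2⟩, abs_le.1 h8.le⟩)
    have h5 : C₂ ≤ |C₂| := le_abs_self _
    have h6 : 0 ≤ |C₂| := abs_nonneg _
    nlinarith

/-- `Re ζ'/ζ ≥ -C log` to the right of the critical line. -/
lemma re_lower (hRH : RiemannHypothesis) : ∃ C : ℝ, 0 < C ∧ ∀ s : ℂ, 1 / 2 < s.re → s.re ≤ 3 / 4 →
    riemannZeta s ≠ 0 ∧ -(C * Real.log (3 + |s.im|)) ≤ (logDeriv riemannZeta s).re := by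
  obtain ⟨C, hC, hg⟩ := gPart_bd
  refine ⟨C, hC, fun s hs1 hs2 => ?_⟩
  obtain ⟨-, hx, hre⟩ := H84.pfr hRH H5.xgr s.im (s.re - 1 / 2) (by linarith) (by linarith)
  have es : (1 / 2 + ((s.re - 1 / 2 : ℝ) : ℂ) + (s.im : ℂ) * I) = s := by
    apply Complex.ext <;> simp
  rw [es] at hx hre
  have h1 : s ≠ 1 := by
    intro h
    rw [h] at hs2
    norm_num at hs2
  have hz : riemannZeta s ≠ 0 := by
    intro h0
    apply hx
    rw [xi_eq (by linarith) h1, h0, mul_zero]
  refine ⟨hz, ?_⟩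
  have h2 := logDeriv_xi_eq (by linarith) h1 hz
  have h3 : (logDeriv riemannZeta s).re = (logDeriv xi s).re - (gPart s).re := by
    rw [h2]
    simp
  have h4 : 0 ≤ (logDeriv xi s).re := by
    rw [hre]
    unfold PD
    refine tsum_nonneg fun γ => ?_
    have : 0 ≤ s.re - 1 / 2 := by linarith
    positivity
  have h5 : (gPart s).re ≤ C * Real.log (3 + |s.im|) :=
    (Complex.re_le_norm _).trans (hg s hs1.le hs2)
  rw [h3]
  linarith

/-- Schwarz-Pick for a positive real part. -/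
lemma deriv_le_of_re_pos {f : ℂ → ℂ} {c : ℂ} {r : ℝ} (hr : 0 < r)
    (hd : DifferentiableOn ℂ f (Metric.ball c r)) (hp : ∀ z ∈ Metric.ball c r, 0 < (f z).re) :
    ‖deriv f c‖ ≤ 2 * (f c).re / r := by
  have hc : c ∈ Metric.ball c r := Metric.mem_ball_self hr
  have hpc := hp c hc
  have hden : ∀ z ∈ Metric.ball c r, f z + (starRingEnd ℂ) (f c) ≠ 0 := by
    intro z hz h0
    have := congrArg Complex.re h0
    simp only [Complex.add_re, Complex.conj_re, Complex.zero_re] at this
    have := hp z hz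
    linarith
  set g : ℂ → ℂ := fun z => (f z - f c) / (f z + (starRingEnd ℂ) (f c)) with hg
  have hgd : DifferentiableOn ℂ g (Metric.ball c r) :=
    (hd.sub_const _).div (hd.add_const _) hden
  have hgc : g c = 0 := by simp [hg]
  have hmaps : MapsTo g (Metric.ball c r) (Metric.ball (g c) 1) := by
    intro z hz
    rw [hgc, mem_ball_zero_iff]
    have hz1 := hp z hz
    have h1 : ‖f z - f c‖ < ‖f z + (starRingEnd ℂ) (f c)‖ := by
      have e1 : ‖f z - f c‖ ^ 2 = ((f z).re - (f c).re) ^ 2 + ((f z).im - (f c).im) ^ 2 := by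
        rw [← Complex.normSq_eq_norm_sq, Complex.normSq_apply]
        simp only [Complex.sub_re, Complex.sub_im]
        ring
      have e2 : ‖f z + (starRingEnd ℂ) (f c)‖ ^ 2 =
          ((f z).re + (f c).re) ^ 2 + ((f z).im - (f c).im) ^ 2 := by
        rw [← Complex.normSq_eq_norm_sq, Complex.normSq_apply]
        simp only [Complex.add_re, Complex.add_im, Complex.conj_re, Complex.conj_im]
        ring
      have h2 : ‖f z - f c‖ ^ 2 < ‖f z + (starRingEnd ℂ) (f c)‖ ^ 2 := by
        rw [e1, e2]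
        nlinarith [mul_pos hz1 hpc]
      exact lt_of_pow_lt_pow_left₀ 2 (norm_nonneg _) h2
    rw [hg]
    simp only
    rw [norm_div, div_lt_one (norm_pos_iff.2 (hden z hz))]
    exact h1
  have h3 := Complex.norm_deriv_le_div_of_mapsTo_ball hgd
    (hmaps.mono_right Metric.ball_subset_closedBall) hr
  have hfd : DifferentiableAt ℂ f c := hd.differentiableAt (Metric.ball_mem_nhds c hr)
  have h4 : deriv g c = deriv f c / (2 * (f c).re) := by
    have h5 : HasDerivAt g ((deriv f c * (f c + (starRingEnd ℂ) (f c)) -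
        (f c - f c) * deriv f c) / (f c + (starRingEnd ℂ) (f c)) ^ 2) c :=
      (hfd.hasDerivAt.sub_const _).div (hfd.hasDerivAt.add_const _) (hden c hc)
    rw [h5.deriv]
    have e : f c + (starRingEnd ℂ) (f c) = 2 * ((f c).re : ℂ) := by
      rw [Complex.add_conj]
      push_cast
      ring
    rw [e, sub_self, zero_mul, sub_zero]
    have : (2 * ((f c).re : ℂ)) ≠ 0 := by
      rw [← e]; exact hden c hc
    field_simp
  rw [h4, norm_div] at h3
  have e2 : ‖(2 * ((f c).re : ℂ))‖ = 2 * (f c).re := by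
    rw [norm_mul, Complex.norm_real, Real.norm_of_nonneg hpc.le]
    simp
  rw [e2, div_le_div_iff₀ (by positivity) hr] at h3
  rw [le_div_iff₀ hr]
  linarith

/-- The derivative of `ζ'/ζ` on the line `Re s = 1/2 + 1/L`. -/
theorem key (hRH : RiemannHypothesis) : ∃ C : ℝ, 0 < C ∧ ∀ L w : ℝ, 8 ≤ L →
    ‖deriv (logDeriv riemannZeta) (((1 / 2 + 1 / L : ℝ) : ℂ) + w * I)‖ ≤
      C * L * (‖logDeriv riemannZeta (((1 / 2 + 1 / L : ℝ) : ℂ) + w * I)‖ +
        Real.log (3 + |w|)) := by
  obtain ⟨C, hC, hlow⟩ := re_lower hRH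
  refine ⟨4 * (2 * C + 2), by positivity, fun L w hL => ?_⟩
  set s : ℂ := ((1 / 2 + 1 / L : ℝ) : ℂ) + w * I with hs
  have hL0 : 0 < L := by linarith
  have hiL : 1 / L ≤ 1 / 8 := one_div_le_one_div_of_le (by norm_num) hL
  have hiL0 : 0 < 1 / L := by positivity
  have hsre : s.re = 1 / 2 + 1 / L := by simp [hs]
  have hsim : s.im = w := by simp [hs]
  set r : ℝ := 1 / (2 * L) with hr
  have hr2 : r = (1 / L) / 2 := by rw [hr]; field_simp
  have hr0 : 0 < r := by rw [hr2]; positivity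
  set c : ℝ := C * (2 * Real.log (3 + |w|)) + 1 with hc
  have hl := one_le_log w
  have hball : ∀ z ∈ Metric.ball s r, 1 / 2 < z.re ∧ z.re ≤ 3 / 4 ∧
      Real.log (3 + |z.im|) ≤ 2 * Real.log (3 + |w|) := by
    intro z hz
    have h1 : ‖z - s‖ < r := by simpa [dist_eq_norm] using hz
    have h2 := abs_le.1 ((Complex.abs_re_le_norm (z - s)).trans h1.le)
    have h3 := (Complex.abs_im_le_norm (z - s)).trans h1.le
    rw [Complex.sub_re, hsre] at h2
    rw [Complex.sub_im, hsim] at h3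
    refine ⟨by rw [hr2] at h2; linarith [h2.1], by rw [hr2] at h2; linarith [h2.2], ?_⟩
    have h4 : |z.im| ≤ |w| + 1 := by
      have h5 : |z.im| ≤ |z.im - w| + |w| := by
        have := abs_add_le (z.im - w) w
        simpa using this
      rw [hr2] at h3
      linarith
    calc Real.log (3 + |z.im|) ≤ Real.log ((3 + |w|) ^ 2) := by
          apply Real.log_le_log (by positivity)
          nlinarith [abs_nonneg w]
      _ = 2 * Real.log (3 + |w|) := by
          rw [Real.log_pow]; norm_num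
  have hne1 : ∀ z ∈ Metric.ball s r, z ≠ 1 := by
    intro z hz h
    have := (hball z hz).2.1
    rw [h] at this
    norm_num at this
  have hzd : DifferentiableOn ℂ riemannZeta (Metric.ball s r) := fun z hz =>
    (differentiableAt_riemannZeta (hne1 z hz)).differentiableWithinAt
  have hzd' : DifferentiableOn ℂ (deriv riemannZeta) (Metric.ball s r) :=
    hzd.deriv Metric.isOpen_ball
  have hzne : ∀ z ∈ Metric.ball s r, riemannZeta z ≠ 0 := fun z hz =>
    (hlow z (hball z hz).1 (hball z hz).2.1).1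
  have hld : DifferentiableOn ℂ (logDeriv riemannZeta) (Metric.ball s r) :=
    hzd'.div hzd hzne
  have hpos : ∀ z ∈ Metric.ball s r, 0 < (logDeriv riemannZeta z + (c : ℂ)).re := by
    intro z hz
    obtain ⟨h1, h2, h3⟩ := hball z hz
    have h4 := (hlow z h1 h2).2
    rw [Complex.add_re, Complex.ofReal_re, hc]
    have h5 : C * Real.log (3 + |z.im|) ≤ C * (2 * Real.log (3 + |w|)) :=
      mul_le_mul_of_nonneg_left h3 hC.le
    linarith
  have h6 := deriv_le_of_re_pos (f := fun z => logDeriv riemannZeta z + (c : ℂ)) hr0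
    (hld.add_const _) hpos
  have h7 : deriv (fun z => logDeriv riemannZeta z + (c : ℂ)) s =
      deriv (logDeriv riemannZeta) s := by
    rw [deriv_add_const]
  rw [h7] at h6
  refine h6.trans ?_
  have h8 : (logDeriv riemannZeta s + (c : ℂ)).re ≤ ‖logDeriv riemannZeta s‖ + c := by
    rw [Complex.add_re, Complex.ofReal_re]
    linarith [Complex.re_le_norm (logDeriv riemannZeta s)]
  have h9 : 2 * (logDeriv riemannZeta s + (c : ℂ)).re / r =
      4 * L * (logDeriv riemannZeta s + (c : ℂ)).re := by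
    rw [hr]
    field_simp
    ring
  rw [h9]
  set X := ‖logDeriv riemannZeta s‖ with hX
  have hX0 : 0 ≤ X := norm_nonneg _
  have h10 : 4 * L * (logDeriv riemannZeta s + (c : ℂ)).re ≤ 4 * L * (X + c) :=
    mul_le_mul_of_nonneg_left h8 (by positivity)
  refine h10.trans ?_
  have h11 : X + c ≤ (2 * C + 2) * (X + Real.log (3 + |w|)) := by
    rw [hc]
    have h12 : 0 ≤ C * X := by positivity
    nlinarith
  calc 4 * L * (X + c) ≤ 4 * L * ((2 * C + 2) * (X + Real.log (3 + |w|))) :=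
        mul_le_mul_of_nonneg_left h11 (by positivity)
    _ = _ := by ring

end Pool.Agent.Lib.MP_6bc78b_nt.GP.H6
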