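import Pool.Agent.Lib.MP_6bc78b_nt.GP.H61.Dms
import Pool.Agent.Lib.MP_6bc78b_nt.GP.H6.Defs5
import Pool.Agent.Lib.MP_6bc78b_nt.GP.H6.Pos

/-! Project GP5, module DMS5: second moment of `D Γ` on the line `Re s = 1/2 + 1/log T`, with the
exponent `5`. -/

set_option autoImplicit false

open Complex Filter Topology MeasureTheory Set
open scoped ENNReal Real

namespace Pool.Agent.Lib.MP_6bc78b_nt.GP.H6

open Pool.Agent.Lib.MP_6bc78b_nt.GP.H61

/-- The weight without the logarithm. -/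
lemma weight0_le {L κ w : ℝ} (hL : 8 ≤ L) (hκ : 0 < κ) (hκ1 : κ ≤ 1)
    (hlog : Real.log (3 / κ) ≤ 3 * L) :
    (1 + |w|) ^ (2 / L) * Real.exp (-(κ * |w|)) ≤ Real.exp 6 := by
  have hw : 0 ≤ |w| := abs_nonneg w
  set x := κ * |w| with hx
  have hx0 : 0 ≤ x := by positivity
  have h3 : 3 + |w| ≤ 3 / κ * (1 + x) := by
    have : 3 / κ * (1 + x) = 3 / κ + 3 * |w| := by rw [hx]; field_simp
    rw [this]
    have : 3 ≤ 3 / κ := by rw [le_div_iff₀ hκ]; linarith
    linarith
  have h3k : 0 < 3 / κ := by positivity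
  have hl : Real.log (3 + |w|) ≤ 3 * L + x := by
    calc Real.log (3 + |w|) ≤ Real.log (3 / κ * (1 + x)) := Real.log_le_log (by positivity) h3
      _ = Real.log (3 / κ) + Real.log (1 + x) := Real.log_mul (by positivity) (by positivity)
      _ ≤ 3 * L + x := by
        have := Real.log_le_sub_one_of_pos (by linarith : 0 < 1 + x)
        linarith
  rw [Real.rpow_def_of_pos (by positivity), ← Real.exp_add]
  refine Real.exp_le_exp.mpr ?_
  have h4 : Real.log (1 + |w|) ≤ 3 * L + x :=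
    (Real.log_le_log (by positivity) (by linarith)).trans hl
  have h5 : Real.log (1 + |w|) * (2 / L) ≤ (3 * L + x) * (2 / L) :=
    mul_le_mul_of_nonneg_right h4 (by positivity)
  have h6 : (3 * L + x) * (2 / L) = 6 + x * (2 / L) := by
    have hL' : L ≠ 0 := by linarith
    field_simp
    ring
  have h7 : 2 / L ≤ 1 / 4 := by
    rw [div_le_div_iff₀ (by linarith) (by norm_num)]; linarith
  have h8 : x * (2 / L) ≤ x * (1 / 4) := mul_le_mul_of_nonneg_left h7 hx0
  linarith

/-- The pointwise bound from the bound for `(ζ'/ζ)'`. -/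
lemma df5_norm_le {A B : ℝ} {s : ℂ} {m l : ℝ} (hm : 1 ≤ m) (hl : 1 ≤ l) (hs1 : s ≠ 1)
    (hz : riemannZeta s ≠ 0)
    (h : ‖deriv (logDeriv riemannZeta) s‖ ≤ m * (‖logDeriv riemannZeta s‖ + l)) :
    ‖DF A B s‖ ^ 2 ≤ 16 * (1 + A ^ 2 + B ^ 2) * (‖deriv (deriv riemannZeta) s‖ ^ 2 +
      m ^ 2 * ‖deriv riemannZeta s‖ ^ 2 + m ^ 2 * l ^ 2 * ‖riemannZeta s‖ ^ 2) := by
  have hne : ∀ᶠ z in 𝓝 s, z ≠ 1 := isOpen_ne.mem_nhds hs1
  have hzd : DifferentiableAt ℂ riemannZeta s := differentiableAt_riemannZeta hs1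
  have hzd' : DifferentiableAt ℂ (deriv riemannZeta) s := by
    have ho : IsOpen {z : ℂ | z ≠ 1} := isOpen_ne
    have hd : DifferentiableOn ℂ riemannZeta {z : ℂ | z ≠ 1} := fun z hz =>
      (differentiableAt_riemannZeta hz).differentiableWithinAt
    exact (hd.deriv ho).differentiableAt (ho.mem_nhds hs1)
  have hder : deriv (logDeriv riemannZeta) s =
      (deriv (deriv riemannZeta) s * riemannZeta s - deriv riemannZeta s * deriv riemannZeta s) /
        riemannZeta s ^ 2 := by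
    have e : logDeriv riemannZeta = fun z => deriv riemannZeta z / riemannZeta z := by
      funext z
      rw [logDeriv_apply]
    rw [e]
    exact deriv_fun_div hzd' hzd hz
  have e : DF A B s = deriv (deriv riemannZeta) s / 2 -
      riemannZeta s * deriv (logDeriv riemannZeta) s + A * deriv riemannZeta s -
        B * riemannZeta s := by
    rw [hder]
    unfold DF FF F0
    field_simp
    ring
  set x := ‖deriv riemannZeta s‖ with hx
  set y := ‖deriv (deriv riemannZeta) s‖ with hy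
  set z := ‖riemannZeta s‖ with hzz
  have hx0 : 0 ≤ x := norm_nonneg _
  have hy0 : 0 ≤ y := norm_nonneg _
  have hz0 : 0 ≤ z := norm_nonneg _
  have hzx : z * ‖logDeriv riemannZeta s‖ = x := by
    rw [logDeriv_apply, norm_div, hzz, hx]
    have : ‖riemannZeta s‖ ≠ 0 := norm_ne_zero_iff.2 hz
    field_simp
  have h0 : z * ‖deriv (logDeriv riemannZeta) s‖ ≤ m * x + m * l * z := by
    calc z * ‖deriv (logDeriv riemannZeta) s‖ ≤ z * (m * (‖logDeriv riemannZeta s‖ + l)) :=
          mul_le_mul_of_nonneg_left h hz0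
      _ = m * (z * ‖logDeriv riemannZeta s‖) + m * l * z := by ring
      _ = _ := by rw [hzx]
  have h1 : ‖DF A B s‖ ≤ y + (m * x + m * l * z) + |A| * x + |B| * z := by
    rw [e]
    refine (norm_sub_le _ _).trans ?_
    refine add_le_add ((norm_add_le _ _).trans (add_le_add ((norm_sub_le _ _).trans
      (add_le_add ?_ ?_)) ?_)) ?_
    · rw [norm_div]
      have : ‖(2 : ℂ)‖ = 2 := by simp
      rw [this]
      linarith
    · rw [norm_mul]; exact h0
    · rw [norm_mul, Complex.norm_real, Real.norm_eq_abs]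
    · rw [norm_mul, Complex.norm_real, Real.norm_eq_abs]
  have hA : |A| * x ≤ |A| * (m * x) :=
    mul_le_mul_of_nonneg_left (le_mul_of_one_le_left hx0 hm) (abs_nonneg _)
  have hml : 1 ≤ m * l := by nlinarith
  have hB : |B| * z ≤ |B| * (m * l * z) :=
    mul_le_mul_of_nonneg_left (le_mul_of_one_le_left hz0 hml) (abs_nonneg _)
  set p := m * x with hp
  set q := m * l * z with hq
  have hp0 : 0 ≤ p := by positivity
  have hq0 : 0 ≤ q := by positivity
  have h2 : ‖DF A B s‖ ≤ y + (1 + |A|) * p + (1 + |B|) * q := by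
    have : y + (p + q) + |A| * x + |B| * z ≤ y + (p + q) + |A| * p + |B| * q := by linarith
    linarith
  have h3 : ‖DF A B s‖ ^ 2 ≤ (y + (1 + |A|) * p + (1 + |B|) * q) ^ 2 :=
    pow_le_pow_left₀ (norm_nonneg _) h2 2
  have h4 : (y + (1 + |A|) * p + (1 + |B|) * q) ^ 2 ≤
      3 * (y ^ 2 + ((1 + |A|) * p) ^ 2 + ((1 + |B|) * q) ^ 2) := by
    nlinarith [sq_nonneg (y - (1 + |A|) * p), sq_nonneg (y - (1 + |B|) * q),
      sq_nonneg ((1 + |A|) * p - (1 + |B|) * q)]
  have h5 : (1 + |A|) ^ 2 ≤ 2 * (1 + A ^ 2) := by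
    nlinarith [sq_nonneg (1 - |A|), sq_abs A]
  have h6 : (1 + |B|) ^ 2 ≤ 2 * (1 + B ^ 2) := by
    nlinarith [sq_nonneg (1 - |B|), sq_abs B]
  have h7 : ((1 + |A|) * p) ^ 2 ≤ 2 * (1 + A ^ 2) * p ^ 2 := by
    rw [mul_pow]; exact mul_le_mul_of_nonneg_right h5 (by positivity)
  have h8 : ((1 + |B|) * q) ^ 2 ≤ 2 * (1 + B ^ 2) * q ^ 2 := by
    rw [mul_pow]; exact mul_le_mul_of_nonneg_right h6 (by positivity)
  have e1 : p ^ 2 = m ^ 2 * x ^ 2 := by rw [hp]; ring
  have e2 : q ^ 2 = m ^ 2 * l ^ 2 * z ^ 2 := by rw [hq]; ring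
  rw [← e1, ← e2]
  have p1 : 0 ≤ A ^ 2 * y ^ 2 := by positivity
  have p2 : 0 ≤ B ^ 2 * y ^ 2 := by positivity
  have p3 : 0 ≤ A ^ 2 * p ^ 2 := by positivity
  have p4 : 0 ≤ B ^ 2 * p ^ 2 := by positivity
  have p5 : 0 ≤ A ^ 2 * q ^ 2 := by positivity
  have p6 : 0 ≤ B ^ 2 * q ^ 2 := by positivity
  have p7 : 0 ≤ y ^ 2 := by positivity
  have p8 : 0 ≤ p ^ 2 := by positivity
  have p9 : 0 ≤ q ^ 2 := by positivity
  nlinarith

/-- **DMS5.** -/
theorem dms5 (hZ : ZMSStatement) (hG : GAMBStatement) : DMS5Statement := by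
  intro hRH A B D hD
  obtain ⟨hdiff, hDF⟩ := hD
  obtain ⟨CR, hCR, hR'⟩ := key hRH
  obtain ⟨C₀, -, hlow⟩ := re_lower hRH
  obtain ⟨CG, hCG, hG'⟩ := hG
  obtain ⟨CZ, hCZ, hZ'⟩ := qm_derivs hZ
  set K : ℝ := 16 * (1 + A ^ 2 + B ^ 2) * CG ^ 2 * (144 * Real.exp 6) * (1 + CR) ^ 2 with hK
  have hK0 : 0 < K := by positivity
  refine ⟨K * CZ * 9, Real.exp 8, by positivity, ?_, ?_⟩
  · have := Real.add_one_lt_exp (by norm_num : (8 : ℝ) ≠ 0)
    have h2 : Real.exp 8 = Real.exp 4 * Real.exp 4 := by rw [← Real.exp_add]; norm_num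
    have h3 := Real.add_one_lt_exp (by norm_num : (4 : ℝ) ≠ 0)
    nlinarith
  intro T κ φ hT hκT hκ1 hφ
  set L := Real.log T with hLdef
  have hT0 : 0 < T := lt_of_lt_of_le (Real.exp_pos 8) hT
  have hL : 8 ≤ L := by
    rw [hLdef, ← Real.log_exp 8]
    exact Real.log_le_log (Real.exp_pos 8) hT
  have hL0 : 0 < L := by linarith
  have hκ : 0 < κ := lt_of_lt_of_le (by positivity) hκT
  have hlogk : Real.log (3 / κ) ≤ 3 * L := by
    have h1 : 3 / κ ≤ 3 * T ^ 2 := by
      rw [div_le_iff₀ hκ]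
      have : 1 / T ^ 2 * T ^ 2 = 1 := by field_simp
      have h2 : 1 ≤ κ * T ^ 2 := by
        rw [← this]; gcongr
      linarith
    calc Real.log (3 / κ) ≤ Real.log (3 * T ^ 2) := Real.log_le_log (by positivity) h1
      _ = Real.log 3 + 2 * L := by
        rw [Real.log_mul (by norm_num) (by positivity), Real.log_pow]
        push_cast
        ring
      _ ≤ 3 * L := by
        have : Real.log 3 ≤ 3 - 1 := Real.log_le_sub_one_of_pos (by norm_num)
        linarith
  have hc : cT T = 1 / 2 + 1 / L := rfl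
  have hiL : 1 / L ≤ 1 / 8 := one_div_le_one_div_of_le (by norm_num) hL
  have hiL0 : 0 < 1 / L := by positivity
  obtain ⟨q0, q1, q2⟩ := hZ' L κ hL hκ hκ1
  have hre : ∀ w : ℝ, (((1 / 2 + 1 / L : ℝ) : ℂ) + w * I).re = 1 / 2 + 1 / L := fun w => by simp
  rw [hc]
  -- pointwise bound
  have hpt : ∀ w : ℝ, ‖D (((1 / 2 + 1 / L : ℝ) : ℂ) + w * I) *
      Complex.Gamma (((1 / 2 + 1 / L : ℝ) : ℂ) + w * I)‖ ^ 2 * Real.exp (2 * φ * w) ≤
      K * L ^ 2 * (‖deriv riemannZeta (((1 / 2 + 1 / L : ℝ) : ℂ) + w * I)‖ ^ 2 *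
        Real.exp (-(κ * |w|))) +
      K * (‖deriv (deriv riemannZeta) (((1 / 2 + 1 / L : ℝ) : ℂ) + w * I)‖ ^ 2 *
        Real.exp (-(κ * |w|))) +
      K * L ^ 4 * (‖riemannZeta (((1 / 2 + 1 / L : ℝ) : ℂ) + w * I)‖ ^ 2 *
        Real.exp (-(κ * |w|))) := by
    intro w
    set s : ℂ := ((1 / 2 + 1 / L : ℝ) : ℂ) + w * I with hs
    have hsre : s.re = 1 / 2 + 1 / L := hre w
    have hsHP : s ∈ HP := by
      show 1 / 2 < s.re
      rw [hsre]; linarith
    have hs1 : s ≠ 1 := by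
      intro h
      rw [h] at hsre
      simp only [Complex.one_re] at hsre
      linarith
    have hz : riemannZeta s ≠ 0 := (hlow s (by rw [hsre]; linarith) (by rw [hsre]; linarith)).1
    rw [hDF s hsHP hs1]
    have hlog1 : 1 ≤ Real.log (3 + |w|) := by
      rw [Real.le_log_iff_exp_le (by positivity)]
      have := Real.exp_one_lt_d9
      linarith [abs_nonneg w]
    have hld : ‖deriv (logDeriv riemannZeta) s‖ ≤
        (1 + CR) * L * (‖logDeriv riemannZeta s‖ + Real.log (3 + |w|)) := by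
      refine (hR' L w hL).trans ?_
      apply mul_le_mul_of_nonneg_right _ (by positivity)
      nlinarith
    have hm1 : 1 ≤ (1 + CR) * L := by nlinarith
    have hdf := df5_norm_le (A := A) (B := B) hm1 hlog1 hs1 hz hld
    have hgam := gamma_le (κ := κ) (φ := φ) (hG' (1 / 2 + 1 / L) w (by linarith) (by linarith)) hφ
    have hwt := weight_le (w := w) hL hκ hκ1 hlogk
    have hwt0 := weight0_le (w := w) hL hκ hκ1 hlogk
    set lw := Real.log (3 + |w|) with hlw
    set ga := Complex.Gamma s with hga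
    set P := (1 + |w|) ^ (2 / L) with hP
    set E := Real.exp (-(κ * |w|)) with hE
    have hP0 : 0 ≤ P := by positivity
    have hE0 : 0 < E := Real.exp_pos _
    set X := ‖deriv riemannZeta s‖ ^ 2 with hX
    set Y := ‖deriv (deriv riemannZeta) s‖ ^ 2 with hY
    set Z := ‖riemannZeta s‖ ^ 2 with hZdef
    have hX0 : 0 ≤ X := by positivity
    have hY0 : 0 ≤ Y := by positivity
    have hZ0 : 0 ≤ Z := by positivity
    have hcr1 : (1 : ℝ) ≤ (1 + CR) ^ 2 := one_le_pow₀ (by linarith)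
    set a1 : ℝ := 16 * (1 + A ^ 2 + B ^ 2) with ha1
    have ha10 : 0 ≤ a1 := by positivity
    set W : ℝ := 144 * Real.exp 6 with hW
    have hW0 : 0 ≤ W := by positivity
    have hPE : P * E ≤ W := by
      refine hwt0.trans ?_
      rw [hW]
      have := Real.exp_pos 6
      linarith
    have hPE2 : P * E ≤ (1 + CR) ^ 2 * W := by nlinarith
    calc ‖DF A B s * ga‖ ^ 2 * Real.exp (2 * φ * w)
        = ‖DF A B s‖ ^ 2 * (‖ga‖ ^ 2 * Real.exp (2 * φ * w)) := by
          rw [norm_mul, mul_pow]; ring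
      _ ≤ (a1 * (Y + ((1 + CR) * L) ^ 2 * X + ((1 + CR) * L) ^ 2 * lw ^ 2 * Z)) *
            (CG ^ 2 * P * E * E) := by
          gcongr
      _ = a1 * CG ^ 2 * E * (Y * (P * E) + (1 + CR) ^ 2 * L ^ 2 * X * (P * E) +
            (1 + CR) ^ 2 * L ^ 2 * Z * (lw ^ 2 * P * E)) := by ring
      _ ≤ a1 * CG ^ 2 * E * (Y * ((1 + CR) ^ 2 * W) + (1 + CR) ^ 2 * L ^ 2 * X * W +
            (1 + CR) ^ 2 * L ^ 2 * Z * (W * L ^ 2)) := by
          refine mul_le_mul_of_nonneg_left ?_ (by positivity)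
          refine add_le_add (add_le_add (mul_le_mul_of_nonneg_left hPE2 hY0)
            (mul_le_mul_of_nonneg_left hPE (by positivity)))
            (mul_le_mul_of_nonneg_left hwt (by positivity))
      _ = K * L ^ 2 * (X * E) + K * (Y * E) + K * L ^ 4 * (Z * E) := by
          rw [hK, hW, ha1]; ring
  -- the lower integral
  have hmeas : ∀ g : ℂ → ℂ, DifferentiableOn ℂ g (ST 0 1) → Measurable (fun w : ℝ =>
      ENNReal.ofReal (‖g (((1 / 2 + 1 / L : ℝ) : ℂ) + w * I)‖ ^ 2 * Real.exp (-(κ * |w|)))) := by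
    intro g hg
    refine ENNReal.measurable_ofReal.comp (Continuous.measurable ?_)
    refine Continuous.mul ((continuous_norm.comp (hg.continuousOn.comp_continuous
      (by fun_prop) (fun w => ?_))).pow 2) (by fun_prop)
    constructor
    · rw [hre w]; linarith
    · rw [hre w]; linarith
  have hlint : ∫⁻ w : ℝ, ENNReal.ofReal (‖D (((1 / 2 + 1 / L : ℝ) : ℂ) + w * I) *
      Complex.Gamma (((1 / 2 + 1 / L : ℝ) : ℂ) + w * I)‖ ^ 2 * Real.exp (2 * φ * w)) ≤
      ENNReal.ofReal (K * CZ * 9 * L ^ 5 / κ) := by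
    calc _ ≤ ∫⁻ w : ℝ, (ENNReal.ofReal (K * L ^ 2) *
            ENNReal.ofReal (‖deriv riemannZeta (((1 / 2 + 1 / L : ℝ) : ℂ) + w * I)‖ ^ 2 *
              Real.exp (-(κ * |w|))) +
          ENNReal.ofReal K *
            ENNReal.ofReal (‖deriv (deriv riemannZeta) (((1 / 2 + 1 / L : ℝ) : ℂ) + w * I)‖ ^ 2 *
              Real.exp (-(κ * |w|))) +
          ENNReal.ofReal (K * L ^ 4) *
            ENNReal.ofReal (‖riemannZeta (((1 / 2 + 1 / L : ℝ) : ℂ) + w * I)‖ ^ 2 *
              Real.exp (-(κ * |w|)))) := by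
          refine lintegral_mono (fun w => ?_)
          rw [← ENNReal.ofReal_mul (by positivity), ← ENNReal.ofReal_mul (by positivity),
            ← ENNReal.ofReal_mul (by positivity), ← ENNReal.ofReal_add (by positivity)
              (by positivity), ← ENNReal.ofReal_add (by positivity) (by positivity)]
          exact ENNReal.ofReal_le_ofReal (hpt w)
      _ = ENNReal.ofReal (K * L ^ 2) * QM (deriv riemannZeta) κ (1 / 2 + 1 / L) +
          ENNReal.ofReal K * QM (deriv (deriv riemannZeta)) κ (1 / 2 + 1 / L) +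
          ENNReal.ofReal (K * L ^ 4) * QM riemannZeta κ (1 / 2 + 1 / L) := by
          rw [lintegral_add_left, lintegral_add_left, lintegral_const_mul _ (hmeas _ dzeta_diff),
            lintegral_const_mul _ (hmeas _ ddzeta_diff), lintegral_const_mul _ (hmeas _ zeta_diff)]
          · rfl
          · exact (hmeas _ dzeta_diff).const_mul _
          · exact ((hmeas _ dzeta_diff).const_mul _).add ((hmeas _ ddzeta_diff).const_mul _)
      _ ≤ ENNReal.ofReal (K * L ^ 2) * ENNReal.ofReal (CZ * L ^ 2 * Real.log (3 / κ) / κ) +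
          ENNReal.ofReal K * ENNReal.ofReal (CZ * L ^ 4 * Real.log (3 / κ) / κ) +
          ENNReal.ofReal (K * L ^ 4) * ENNReal.ofReal (CZ * Real.log (3 / κ) / κ) := by
          gcongr
      _ = ENNReal.ofReal (K * L ^ 2 * (CZ * L ^ 2 * Real.log (3 / κ) / κ) +
          K * (CZ * L ^ 4 * Real.log (3 / κ) / κ) +
          K * L ^ 4 * (CZ * Real.log (3 / κ) / κ)) := by
          have hl0 : 0 ≤ Real.log (3 / κ) := Real.log_nonneg (by rw [le_div_iff₀ hκ]; linarith)
          rw [← ENNReal.ofReal_mul (by positivity), ← ENNReal.ofReal_mul (by positivity),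
            ← ENNReal.ofReal_mul (by positivity), ← ENNReal.ofReal_add (by positivity)
              (by positivity), ← ENNReal.ofReal_add (by positivity) (by positivity)]
      _ ≤ ENNReal.ofReal (K * CZ * 9 * L ^ 5 / κ) := by
          refine ENNReal.ofReal_le_ofReal ?_
          have e1 : K * L ^ 2 * (CZ * L ^ 2 * Real.log (3 / κ) / κ) +
              K * (CZ * L ^ 4 * Real.log (3 / κ) / κ) +
              K * L ^ 4 * (CZ * Real.log (3 / κ) / κ) =
              (K * CZ / κ) * ((3 * L ^ 4) * Real.log (3 / κ)) := by ring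
          have e2 : K * CZ * 9 * L ^ 5 / κ = (K * CZ / κ) * (9 * L ^ 5) := by ring
          rw [e1, e2]
          refine mul_le_mul_of_nonneg_left ?_ (by positivity)
          have hl0 : 0 ≤ Real.log (3 / κ) := Real.log_nonneg (by rw [le_div_iff₀ hκ]; linarith)
          calc (3 * L ^ 4) * Real.log (3 / κ) ≤ (3 * L ^ 4) * (3 * L) := by gcongr
            _ = 9 * L ^ 5 := by ring
  have hcont : Continuous (fun w : ℝ => ‖D (((1 / 2 + 1 / L : ℝ) : ℂ) + w * I) *
      Complex.Gamma (((1 / 2 + 1 / L : ℝ) : ℂ) + w * I)‖ ^ 2 * Real.exp (2 * φ * w)) := by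
    refine Continuous.mul ((continuous_norm.comp (Continuous.mul ?_ ?_)).pow 2) (by fun_prop)
    · refine hdiff.continuousOn.comp_continuous (by fun_prop) (fun w => ?_)
      show 1 / 2 < (((1 / 2 + 1 / L : ℝ) : ℂ) + w * I).re
      rw [hre w]; linarith
    · rw [continuous_iff_continuousAt]
      intro w
      refine ContinuousAt.comp (f := fun w : ℝ => (((1 / 2 + 1 / L : ℝ) : ℂ) + w * I)) ?_
        (by fun_prop : Continuous (fun w : ℝ => (((1 / 2 + 1 / L : ℝ) : ℂ) + w * I))).continuousAt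
      refine (Complex.differentiableAt_Gamma _ ?_).continuousAt
      intro m hm
      have := congrArg Complex.re hm
      rw [hre w] at this
      simp only [Complex.neg_re, Complex.natCast_re] at this
      have hm0 : (0 : ℝ) ≤ m := Nat.cast_nonneg m
      linarith
  have hnn : ∀ w : ℝ, 0 ≤ ‖D (((1 / 2 + 1 / L : ℝ) : ℂ) + w * I) *
      Complex.Gamma (((1 / 2 + 1 / L : ℝ) : ℂ) + w * I)‖ ^ 2 * Real.exp (2 * φ * w) :=
    fun w => by positivity
  have hint : Integrable (fun w : ℝ => ‖D (((1 / 2 + 1 / L : ℝ) : ℂ) + w * I) *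
      Complex.Gamma (((1 / 2 + 1 / L : ℝ) : ℂ) + w * I)‖ ^ 2 * Real.exp (2 * φ * w)) := by
    refine ⟨hcont.aestronglyMeasurable, ?_⟩
    rw [hasFiniteIntegral_iff_ofReal (Eventually.of_forall hnn)]
    exact lt_of_le_of_lt hlint ENNReal.ofReal_lt_top
  refine ⟨hint, ?_⟩
  rw [← ofReal_integral_eq_lintegral_ofReal hint (Eventually.of_forall hnn)] at hlint
  rwa [ENNReal.ofReal_le_ofReal_iff (by positivity)] at hlint

end Pool.Agent.Lib.MP_6bc78b_nt.GP.H6
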