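import Pool.Agent.Lib.MP_6bc78b_nt.GP.H25.Pre
import Pool.Agent.Lib.MP_6bc78b_nt.GP.H27.Gamb
import Pool.Agent.Lib.MP_6bc78b_nt.GP.H37.Gamc
import Pool.Agent.Lib.MP_6bc78b_nt.GP.H47.Contour
import Pool.Agent.Lib.MP_6bc78b_nt.GP.H76.Chv
import Pool.Agent.Lib.MP_6bc78b_nt.GP.H6.Dms5
import Pool.Agent.Lib.MP_6bc78b_nt.GP.H6.Ray5
import Pool.Agent.Lib.MP_6bc78b_nt.GP.H6.Are5
import Pool.Agent.Lib.MP_6bc78b_nt.GP.H79.Lftr
import Pool.Agent.Lib.MP_6bc78b_nt.GP.H91.Chb5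
import Pool.Agent.Lib.MP_6bc78b_nt.GP.H91.Fin5
import Pool.Agent.Lib.MP_6bc78b_nt.GP.H92.Avgw

/-! Project GP5: the final theorem. -/

set_option autoImplicit false

namespace Pool.Agent.Lib.MP_6bc78b_nt.GP.H6

/-- Gaps between simple zeros, sharper form. -/
theorem gap5 : GapStatement5 := by
  have dx2 : DX2Statement := H38.dx2
  have etr : ETRStatement := H91.etr dx2
  have gamc : GAMCStatement := H37.gamc
  have are : ARE5Statement :=
    are5 (ray5 (mel H82.gami dx2 H16.grw H27.gamb) H13.plc (dms5 H64.zms H27.gamb))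
  have con : CONStatement := H47.con (H69.rgt H82.gami dx2) dx2 gamc
  exact H91F.fin5 (H91C.chb5 H79.dx1 (avgw are H76.chv etr dx2) (H91B.box H13.plc etr) con
    (H79.lftr H35.feq gsl omd dx2) (H30.tls gamc) etr)

end Pool.Agent.Lib.MP_6bc78b_nt.GP.H6
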