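import Pool.Agent.Lib.MP_6bc78b_nt.GP.H62.Defs7
import Pool.Agent.Lib.MP_6bc78b_nt.GP.H92.Avgw

/-! Project GP7, module AVG7: a good `δ`. -/

set_option autoImplicit false

open Complex Filter Topology MeasureTheory ArithmeticFunction Set
open scoped ENNReal

namespace Pool.Agent.Lib.MP_6bc78b_nt.GP.H6

open Pool.Agent.Lib.MP_6bc78b_nt.MS Pool.Agent.Lib.MP_6bc78b_nt.MS.P1
open Pool.Agent.Lib.MP_6bc78b_nt.GP.G7 Pool.Agent.Lib.MP_6bc78b_nt.GP.H92
  Pool.Agent.Lib.MP_6bc78b_nt.GP.H4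

/-- The sum of Gaussians is at most a Cauchy weight. -/
lemma gsum (X : ℝ) (hX : 0 ≤ X) (N : ℕ) :
    ∑ k ∈ Finset.range (N + 1), ((4 : ℝ)⁻¹) ^ k * Real.exp (-(X * ((4 : ℝ)⁻¹) ^ k)) ≤
      8 / 3 / (1 + X) := by
  set S := ∑ k ∈ Finset.range (N + 1), ((4 : ℝ)⁻¹) ^ k *
    Real.exp (-(X * ((4 : ℝ)⁻¹) ^ k)) with hS
  have h1 : S ≤ 4 / 3 := by
    have h2 : S ≤ ∑ k ∈ Finset.range (N + 1), ((4 : ℝ)⁻¹) ^ k := by
      refine Finset.sum_le_sum fun k _ => ?_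
      refine mul_le_of_le_one_right (by positivity) ?_
      rw [Real.exp_le_one_iff]
      have : 0 ≤ X * ((4 : ℝ)⁻¹) ^ k := by positivity
      linarith
    refine h2.trans ?_
    rw [geom_sum_eq (by norm_num)]
    have : 0 < ((4 : ℝ)⁻¹) ^ (N + 1) := by positivity
    rw [div_le_iff_of_neg (by norm_num)]
    linarith
  have h3 : X * S ≤ 4 / 3 := by
    have h4 : ∀ k ∈ Finset.range (N + 1), 3 / 4 * (X * (((4 : ℝ)⁻¹) ^ k *
        Real.exp (-(X * ((4 : ℝ)⁻¹) ^ k)))) ≤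
        Real.exp (-(X * ((4 : ℝ)⁻¹) ^ (k + 1))) - Real.exp (-(X * ((4 : ℝ)⁻¹) ^ k)) := by
      intro k _
      set x := X * ((4 : ℝ)⁻¹) ^ k with hx
      have e1 : X * ((4 : ℝ)⁻¹) ^ (k + 1) = x / 4 := by
        rw [hx, pow_succ]
        ring
      rw [e1]
      have e2 : Real.exp (-(x / 4)) = Real.exp (-x) * Real.exp (3 * x / 4) := by
        rw [← Real.exp_add]
        congr 1
        ring
      have e3 := Real.add_one_le_exp (3 * x / 4)
      have e4 : Real.exp (-x) * (3 * x / 4 + 1) ≤ Real.exp (-x) * Real.exp (3 * x / 4) :=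
        mul_le_mul_of_nonneg_left e3 (Real.exp_pos _).le
      rw [e2]
      have e5 : 3 / 4 * (X * (((4 : ℝ)⁻¹) ^ k * Real.exp (-x))) =
          Real.exp (-x) * (3 * x / 4) := by
        rw [hx]
        ring
      rw [e5]
      linarith
    have h5 := Finset.sum_le_sum h4
    rw [Finset.sum_range_sub (fun k => Real.exp (-(X * ((4 : ℝ)⁻¹) ^ k))), ← Finset.mul_sum,
      ← Finset.mul_sum, ← hS] at h5
    have h6 : Real.exp (-(X * ((4 : ℝ)⁻¹) ^ (N + 1))) ≤ 1 := by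
      rw [Real.exp_le_one_iff]
      have : 0 ≤ X * ((4 : ℝ)⁻¹) ^ (N + 1) := by positivity
      linarith
    have h7 : 0 < Real.exp (-(X * ((4 : ℝ)⁻¹) ^ 0)) := Real.exp_pos _
    linarith
  rw [le_div_iff₀ (by positivity)]
  linarith

/-- The total weight. -/
lemma wsum {κ₀ R lam y : ℝ} (hκ : 0 < κ₀) (hl : 1 ≤ lam) (hy : |y| ≤ R) (N : ℕ)
    (hN : lam < 2 ^ (N + 1)) :
    ∑ k ∈ Finset.range (N + 1), 11 * ((4 : ℝ)⁻¹) ^ k *
        Real.exp (-(κ₀ * (lam * (1 / 2) ^ k) ^ 2 * y ^ 2)) +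
      2 * ((4 : ℝ)⁻¹) ^ N * Real.exp (-(κ₀ * 1 ^ 2 * y ^ 2)) ≤
      (30 + 8 * (1 + κ₀ * R ^ 2)) / (1 + κ₀ * lam ^ 2 * y ^ 2) := by
  have hl0 : 0 < lam := by linarith
  have hX : 0 ≤ κ₀ * lam ^ 2 * y ^ 2 := by positivity
  have h1 := gsum (κ₀ * lam ^ 2 * y ^ 2) hX N
  have e1 : ∑ k ∈ Finset.range (N + 1), 11 * ((4 : ℝ)⁻¹) ^ k *
        Real.exp (-(κ₀ * (lam * (1 / 2) ^ k) ^ 2 * y ^ 2)) =
      11 * ∑ k ∈ Finset.range (N + 1), ((4 : ℝ)⁻¹) ^ k *
        Real.exp (-(κ₀ * lam ^ 2 * y ^ 2 * ((4 : ℝ)⁻¹) ^ k)) := by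
    rw [Finset.mul_sum]
    refine Finset.sum_congr rfl fun k _ => ?_
    have e3 : ((4 : ℝ)⁻¹) ^ k = ((1 / 2 : ℝ) ^ k) ^ 2 := by
      rw [← pow_mul, mul_comm, pow_mul]
      norm_num
    rw [mul_assoc]
    congr 3
    rw [e3]
    ring
  have e2 : ((4 : ℝ)⁻¹) ^ N ≤ 4 / lam ^ 2 := by
    have e5 : lam ^ 2 < (2 ^ (N + 1)) ^ 2 := pow_lt_pow_left₀ hN hl0.le (by norm_num)
    have e6 : ((2 : ℝ) ^ (N + 1)) ^ 2 = 4 * 4 ^ N := by
      rw [← pow_mul, mul_comm, pow_mul, pow_succ]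
      norm_num
      ring
    rw [e6] at e5
    rw [inv_pow, inv_eq_one_div, div_le_div_iff₀ (by positivity) (by positivity)]
    linarith
  have e3 : Real.exp (-(κ₀ * 1 ^ 2 * y ^ 2)) ≤ 1 := by
    rw [Real.exp_le_one_iff]
    have : 0 ≤ κ₀ * 1 ^ 2 * y ^ 2 := by positivity
    linarith
  have e4 : 2 * ((4 : ℝ)⁻¹) ^ N * Real.exp (-(κ₀ * 1 ^ 2 * y ^ 2)) ≤ 8 / lam ^ 2 := by
    calc 2 * ((4 : ℝ)⁻¹) ^ N * Real.exp (-(κ₀ * 1 ^ 2 * y ^ 2)) ≤ 2 * (4 / lam ^ 2) * 1 := by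
          gcongr
      _ = 8 / lam ^ 2 := by ring
  have e5 : 8 / lam ^ 2 ≤ 8 * (1 + κ₀ * R ^ 2) / (1 + κ₀ * lam ^ 2 * y ^ 2) := by
    rw [div_le_div_iff₀ (by positivity) (by positivity)]
    have e6 : y ^ 2 ≤ R ^ 2 := by
      rw [← sq_abs]
      exact pow_le_pow_left₀ (abs_nonneg _) hy 2
    have e7 : 1 ≤ lam ^ 2 := one_le_pow₀ hl
    have e8 : κ₀ * lam ^ 2 * y ^ 2 ≤ κ₀ * lam ^ 2 * R ^ 2 :=
      mul_le_mul_of_nonneg_left e6 (by positivity)
    nlinarith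
  rw [e1, add_div]
  have e9 : 11 * (8 / 3 / (1 + κ₀ * lam ^ 2 * y ^ 2)) ≤ 30 / (1 + κ₀ * lam ^ 2 * y ^ 2) := by
    have e10 : 11 * (8 / 3 / (1 + κ₀ * lam ^ 2 * y ^ 2)) =
        (88 / 3) / (1 + κ₀ * lam ^ 2 * y ^ 2) := by ring
    rw [e10]
    exact div_le_div_of_nonneg_right (by norm_num) (by positivity)
  have e11 := mul_le_mul_of_nonneg_left h1 (by norm_num : (0 : ℝ) ≤ 11)
  linarith

/-- AVG7. -/
theorem avg7 (h1 : ARE7Statement) (h2 : CHVStatement) (h4 : DX2Statement)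
    (h5 : TAI7Statement) : AVG7Statement := by
  intro hRH A B D hD ε hε
  obtain ⟨a, b, R, κ₀, C₂, ha, hab, hR, hκ, hC₂, hchv⟩ := h2
  set C₅ : ℝ := 30 + 8 * (1 + κ₀ * R ^ 2) with hC₅
  have hC₅0 : 0 < C₅ := by positivity
  obtain ⟨K, T₁, hT₁, hare⟩ := h1 hRH A B D hD a b R κ₀ (ε / (4 * C₂ * C₅)) ha hab hR hκ
    (by positivity)
  obtain ⟨C₃, T₂, hC₃, hT₂, htai⟩ := h5 A B
  have hlog : Tendsto (fun T : ℝ => Real.log (Real.log T)) atTop atTop :=
    Real.tendsto_log_atTop.comp Real.tendsto_log_atTop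
  obtain ⟨T₃, h3⟩ := eventually_atTop.1 (hlog.eventually_ge_atTop
    (max 16 (8 * Real.log (4 * C₃ / ε))))
  refine ⟨K, max T₁ (max T₂ T₃), lt_max_of_lt_left hT₁, ?_⟩
  intro T H lam hT hl1 hl2 hH hHl
  have hTT₁ : T₁ ≤ T := (le_max_left _ _).trans hT
  have hTT₂ : T₂ ≤ T := (le_max_left _ _).trans ((le_max_right _ _).trans hT)
  have hTT₃ : T₃ ≤ T := (le_max_right _ _).trans ((le_max_right _ _).trans hT)
  have hT10 : 10 < T := lt_of_lt_of_le hT₁ hTT₁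
  have hT0 : 0 < T := by linarith
  have h6 := h3 T hTT₃
  have hll : 16 ≤ Real.log (Real.log T) := (le_max_left _ _).trans h6
  have hll2 : 8 * Real.log (4 * C₃ / ε) ≤ Real.log (Real.log T) := (le_max_right _ _).trans h6
  have hL : 1 ≤ Real.log T := by
    rw [Real.le_log_iff_exp_le hT0]
    have := Real.exp_one_lt_d9
    linarith
  have hL0 : 0 < Real.log T := by linarith
  have hH4 : 4 ≤ H := by
    refine le_trans ?_ hH
    rw [Real.le_sqrt (by norm_num) (by linarith)]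
    linarith
  have hH2 : Real.log (Real.log T) ≤ H ^ 2 := by
    have := pow_le_pow_left₀ (Real.sqrt_nonneg _) hH 2
    rwa [Real.sq_sqrt (by linarith)] at this
  have hlam1 : 1 ≤ lam := by linarith
  have hlam0 : 0 < lam := by linarith
  have hlamT : lam ≤ T := by
    refine hl2.trans ?_
    have := Real.log_le_sub_one_of_pos hT0
    linarith
  obtain ⟨N, hN1, hN2⟩ := exists_nat_pow_near hlam1 (by norm_num : (1 : ℝ) < 2)
  set LL : ℝ := Real.log T ^ 4 with hLL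
  have hLL0 : 0 < LL := by positivity
  by_contra hcon
  push Not at hcon
  -- the majorant
  set G : ℝ → ℝ≥0∞ := fun δ => ∑ k ∈ Finset.range (N + 1),
    ENNReal.ofReal (11 * ((4 : ℝ)⁻¹) ^ k) * JJ A B (lam * (1 / 2) ^ k) δ +
      ENNReal.ofReal (2 * ((4 : ℝ)⁻¹) ^ N) * JJ A B 1 δ with hG
  set OO : ℝ → ℝ≥0∞ := fun δ => ∫⁻ u in {u : ℝ | 1 / 2 < |u|},
    ENNReal.ofReal (‖EE A B (zp u δ)‖ ^ 2 * Real.exp (-(H ^ 2 * u ^ 2) + u)) with hO
  have hGm : Measurable G :=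
    (Finset.measurable_sum _ fun k _ => (meas_JJ h4 A B _).const_mul _).add
      ((meas_JJ h4 A B _).const_mul _)
  have hcompl : (Icc (-(1 / 2) : ℝ) (1 / 2))ᶜ = {u : ℝ | 1 / 2 < |u|} := by
    ext u
    rw [mem_compl_iff, mem_Icc, ← abs_le, not_le]
    rfl
  have hin : ∀ δ ∈ Icc (1 / T) (2 / T), ENNReal.ofReal (ε * T * LL) ≤ G δ + OO δ := by
    intro δ hδ
    have hδ0 : 0 < δ := lt_of_lt_of_le (by positivity) hδ.1
    have hδh : δ ≤ 1 / 2 := by
      refine hδ.2.trans ?_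
      rw [div_le_iff₀ hT0]
      linarith
    have e1 := hcon δ hδ
    rw [← lintegral_add_compl _ (measurableSet_Icc : MeasurableSet (Icc (-(1 / 2) : ℝ) (1 / 2)))]
      at e1
    refine e1.le.trans (add_le_add ?_ ?_)
    · refine le_trans ?_ (split_le h4 A B lam δ N)
      refine lintegral_mono fun u => ?_
      have hpos := zp_re_pos (u := u) hδ0 hδh
      unfold gE
      rw [if_pos hpos, ← ENNReal.ofReal_mul (by positivity)]
      refine ENNReal.ofReal_le_ofReal ?_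
      rw [mul_div_assoc]
      refine mul_le_mul_of_nonneg_left ?_ (by positivity)
      refine div_le_div_of_nonneg_right (Real.exp_le_exp.2 ?_) (by positivity)
      nlinarith [mul_nonneg (sq_nonneg H) (sq_nonneg u)]
    · rw [hcompl]
      refine lintegral_mono fun u => ENNReal.ofReal_le_ofReal ?_
      refine div_le_self (by positivity) ?_
      nlinarith [mul_nonneg (sq_nonneg lam) (sq_nonneg u)]
  have hlow : ENNReal.ofReal (ε * LL) ≤ ∫⁻ δ in Icc (1 / T) (2 / T), (G δ + OO δ) := by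
    have e1 : ∫⁻ _ in Icc (1 / T) (2 / T), ENNReal.ofReal (ε * T * LL) =
        ENNReal.ofReal (ε * LL) := by
      rw [setLIntegral_const, Real.volume_Icc, ← ENNReal.ofReal_mul (by positivity)]
      congr 1
      field_simp
      ring
    rw [← e1]
    exact setLIntegral_mono' measurableSet_Icc hin
  rw [lintegral_add_left hGm] at hlow
  have hout : ∫⁻ δ in Icc (1 / T) (2 / T), OO δ ≤ ENNReal.ofReal (ε / 4 * LL) := by
    refine (htai T H hTT₂ hH4).trans (ENNReal.ofReal_le_ofReal ?_)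
    have e1 : Real.exp (-(H ^ 2 / 8)) ≤ ε / (4 * C₃) := by
      have e2 : Real.log (4 * C₃ / ε) ≤ H ^ 2 / 8 := by linarith
      have e3 : 4 * C₃ / ε ≤ Real.exp (H ^ 2 / 8) :=
        (Real.log_le_iff_le_exp (by positivity)).1 e2
      rw [Real.exp_neg, inv_le_comm₀ (Real.exp_pos _) (by positivity), inv_div]
      exact e3
    calc C₃ * Real.log T ^ 4 * Real.exp (-(H ^ 2 / 8)) ≤ C₃ * Real.log T ^ 4 * (ε / (4 * C₃)) :=
          mul_le_mul_of_nonneg_left e1 (by positivity)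
      _ = ε / 4 * LL := by rw [hLL]; field_simp
  -- one Gaussian
  have hms : MeasurableSet {z : ℂ | a / T ≤ z.re ∧ z.re ≤ b / T ∧ |z.im| ≤ R} := by
    have m1 : MeasurableSet {z : ℂ | a / T ≤ z.re} :=
      measurableSet_le measurable_const Complex.measurable_re
    have m2 : MeasurableSet {z : ℂ | z.re ≤ b / T} :=
      measurableSet_le Complex.measurable_re measurable_const
    have m3 : MeasurableSet {z : ℂ | |z.im| ≤ R} :=
      measurableSet_le (f := fun z : ℂ => |z.im|) (g := fun _ => R)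
        Complex.measurable_im.norm measurable_const
    exact m1.inter (m2.inter m3)
  have hgm : Measurable (gE A B) := measurable_gE h4 A B
  have hem : ∀ H' : ℝ, Measurable fun z : ℂ =>
      ENNReal.ofReal (Real.exp (-(κ₀ * H' ^ 2 * z.im ^ 2))) := by
    intro H'
    refine Measurable.ennreal_ofReal (Continuous.measurable ?_)
    fun_prop
  have hme : ∀ H' : ℝ, Measurable fun z : ℂ => gE A B z *
      ENNReal.ofReal (Real.exp (-(κ₀ * H' ^ 2 * z.im ^ 2))) := fun H' => hgm.mul (hem H')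
  have hJ : ∀ H' : ℝ, 1 ≤ H' → H' ≤ T → ∫⁻ δ in Icc (1 / T) (2 / T), JJ A B H' δ ≤
      ENNReal.ofReal C₂ * ∫⁻ z in {z : ℂ | a / T ≤ z.re ∧ z.re ≤ b / T ∧ |z.im| ≤ R},
        gE A B z * ENNReal.ofReal (Real.exp (-(κ₀ * H' ^ 2 * z.im ^ 2))) := fun H' hH1 hHT =>
    hchv (gE A B) (measurable_gE h4 A B) T H' hT10.le hH1 hHT
  have hHk : ∀ k ∈ Finset.range (N + 1), 1 ≤ lam * (1 / 2) ^ k ∧ lam * (1 / 2) ^ k ≤ T := by
    intro k hk
    have hk' : k ≤ N := Nat.lt_succ_iff.1 (Finset.mem_range.1 hk)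
    constructor
    · rw [one_div, inv_pow, ← div_eq_mul_inv, le_div_iff₀ (by positivity), one_mul]
      exact (pow_le_pow_right₀ (by norm_num) hk').trans hN1
    · refine (mul_le_of_le_one_right hlam0.le ?_).trans hlamT
      exact pow_le_one₀ (by norm_num) (by norm_num)
  have hup : ∫⁻ δ in Icc (1 / T) (2 / T), G δ ≤ ENNReal.ofReal (ε / 4 * LL) := by
    have e0 : ∫⁻ δ in Icc (1 / T) (2 / T), G δ ≤
        ENNReal.ofReal C₂ * ∫⁻ z in {z : ℂ | a / T ≤ z.re ∧ z.re ≤ b / T ∧ |z.im| ≤ R},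
          (∑ k ∈ Finset.range (N + 1), ENNReal.ofReal (11 * ((4 : ℝ)⁻¹) ^ k) *
            (gE A B z * ENNReal.ofReal (Real.exp (-(κ₀ * (lam * (1 / 2) ^ k) ^ 2 * z.im ^ 2)))) +
          ENNReal.ofReal (2 * ((4 : ℝ)⁻¹) ^ N) *
            (gE A B z * ENNReal.ofReal (Real.exp (-(κ₀ * 1 ^ 2 * z.im ^ 2))))) := by
      rw [lintegral_add_left (Finset.measurable_sum _ fun k _ => (hme _).const_mul _),
        lintegral_finsetSum _ fun k _ => (hme _).const_mul _,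
        lintegral_const_mul _ (hme _), mul_add, Finset.mul_sum]
      simp only [hG]
      rw [lintegral_add_left (Finset.measurable_sum _ fun k _ => (meas_JJ h4 A B _).const_mul _),
        lintegral_finsetSum _ fun k _ => (meas_JJ h4 A B _).const_mul _,
        lintegral_const_mul _ (meas_JJ h4 A B _)]
      refine add_le_add (Finset.sum_le_sum fun k hk => ?_) ?_
      · rw [lintegral_const_mul _ (meas_JJ h4 A B _), lintegral_const_mul _ (hme _),
          mul_left_comm]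
        exact mul_le_mul' le_rfl (hJ _ (hHk k hk).1 (hHk k hk).2)
      · rw [mul_left_comm]
        exact mul_le_mul' le_rfl (hJ 1 le_rfl (by linarith))
    refine e0.trans ?_
    have e1 : ∫⁻ z in {z : ℂ | a / T ≤ z.re ∧ z.re ≤ b / T ∧ |z.im| ≤ R},
          (∑ k ∈ Finset.range (N + 1), ENNReal.ofReal (11 * ((4 : ℝ)⁻¹) ^ k) *
            (gE A B z * ENNReal.ofReal (Real.exp (-(κ₀ * (lam * (1 / 2) ^ k) ^ 2 * z.im ^ 2)))) +
          ENNReal.ofReal (2 * ((4 : ℝ)⁻¹) ^ N) *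
            (gE A B z * ENNReal.ofReal (Real.exp (-(κ₀ * 1 ^ 2 * z.im ^ 2))))) ≤
        ∫⁻ z in strip a b R T, ENNReal.ofReal C₅ *
          ENNReal.ofReal (‖EE A B z‖ ^ 2 / (1 + κ₀ * lam ^ 2 * z.im ^ 2)) := by
      refine setLIntegral_mono' hms fun z hz => ?_
      have hpos : 0 < z.re := lt_of_lt_of_le (by positivity) hz.1
      have e2 := wsum hκ hlam1 hz.2.2 N hN2
      have e3 : ∑ k ∈ Finset.range (N + 1), ENNReal.ofReal (11 * ((4 : ℝ)⁻¹) ^ k) *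
            (gE A B z * ENNReal.ofReal (Real.exp (-(κ₀ * (lam * (1 / 2) ^ k) ^ 2 * z.im ^ 2)))) +
          ENNReal.ofReal (2 * ((4 : ℝ)⁻¹) ^ N) *
            (gE A B z * ENNReal.ofReal (Real.exp (-(κ₀ * 1 ^ 2 * z.im ^ 2)))) =
          gE A B z * ENNReal.ofReal (∑ k ∈ Finset.range (N + 1), 11 * ((4 : ℝ)⁻¹) ^ k *
        Real.exp (-(κ₀ * (lam * (1 / 2) ^ k) ^ 2 * z.im ^ 2)) +
      2 * ((4 : ℝ)⁻¹) ^ N * Real.exp (-(κ₀ * 1 ^ 2 * z.im ^ 2))) := by
        rw [ENNReal.ofReal_add (Finset.sum_nonneg fun k _ => by positivity) (by positivity),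
          ENNReal.ofReal_sum_of_nonneg fun k _ => by positivity, mul_add, Finset.mul_sum]
        congr 1
        · refine Finset.sum_congr rfl fun k _ => ?_
          rw [mul_left_comm, ← ENNReal.ofReal_mul (by positivity)]
        · rw [mul_left_comm, ← ENNReal.ofReal_mul (by positivity)]
      rw [e3]
      refine (mul_le_mul' le_rfl (ENNReal.ofReal_le_ofReal e2)).trans (le_of_eq ?_)
      unfold gE
      rw [if_pos hpos, ← ENNReal.ofReal_mul (by positivity), ← ENNReal.ofReal_mul hC₅0.le]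
      congr 1
      ring
    refine (mul_le_mul' le_rfl e1).trans ?_
    rw [lintegral_const_mul' _ _ ENNReal.ofReal_ne_top]
    refine (mul_le_mul' le_rfl (mul_le_mul' le_rfl (hare T lam hTT₁ hl1 hl2))).trans ?_
    rw [← ENNReal.ofReal_mul hC₅0.le, ← ENNReal.ofReal_mul hC₂.le]
    refine ENNReal.ofReal_le_ofReal (le_of_eq ?_)
    rw [hLL]
    field_simp
  have hfin := hlow.trans (add_le_add hup hout)
  rw [← ENNReal.ofReal_add (by positivity) (by positivity),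
    ENNReal.ofReal_le_ofReal_iff (by positivity)] at hfin
  nlinarith [mul_pos hε hLL0]

end Pool.Agent.Lib.MP_6bc78b_nt.GP.H6
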