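import Pool.Agent.Lib.MP_6bc78b_nt.GP.H6.Avg7

/-! Project GP10: the change of variables with the weight `1/(1 + lam² u²)`, any function. -/

set_option autoImplicit false

open Complex Filter Topology MeasureTheory ArithmeticFunction Set
open scoped ENNReal

namespace Pool.Agent.Lib.MP_6bc78b_nt.GP.H6.Lowb

open Pool.Agent.Lib.MP_6bc78b_nt.MS Pool.Agent.Lib.MP_6bc78b_nt.MS.P1
open Pool.Agent.Lib.MP_6bc78b_nt.GP.G7 Pool.Agent.Lib.MP_6bc78b_nt.GP.H92
  Pool.Agent.Lib.MP_6bc78b_nt.GP.H4 Pool.Agent.Lib.MP_6bc78b_nt.GP.H6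

/-- The integral over `|u| ≤ 1/2` with a Gaussian. -/
noncomputable def JG (g : ℂ → ℝ≥0∞) (H δ : ℝ) : ℝ≥0∞ :=
  ∫⁻ u in Icc (-(1 / 2) : ℝ) (1 / 2),
    g (zp u δ) * ENNReal.ofReal (Real.exp (-(H ^ 2 * u ^ 2) + u))

theorem meas_J0 {g : ℂ → ℝ≥0∞} (hg : Measurable g) (H : ℝ) : Measurable fun p : ℝ × ℝ =>
    g (zp p.2 p.1) * ENNReal.ofReal (Real.exp (-(H ^ 2 * p.2 ^ 2) + p.2)) := by
  refine (hg.comp meas_zp).mul ?_
  refine Measurable.ennreal_ofReal (Continuous.measurable ?_)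
  fun_prop

theorem meas_JG {g : ℂ → ℝ≥0∞} (hg : Measurable g) (H : ℝ) : Measurable (JG g H) :=
  (meas_J0 hg H).lintegral_prod_right'

theorem meas_Ju {g : ℂ → ℝ≥0∞} (hg : Measurable g) (H δ : ℝ) : Measurable fun u : ℝ =>
    g (zp u δ) * ENNReal.ofReal (Real.exp (-(H ^ 2 * u ^ 2) + u)) := by
  have h1 : Measurable fun u : ℝ => zp u δ := by
    refine Continuous.measurable ?_
    unfold zp
    fun_prop
  refine (hg.comp h1).mul ?_
  refine Measurable.ennreal_ofReal (Continuous.measurable ?_)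
  fun_prop

/-- The weight on `|u| ≤ 1/2`. -/
theorem split_le {g : ℂ → ℝ≥0∞} (hg : Measurable g) (lam δ : ℝ) (N : ℕ) :
    ∫⁻ u in Icc (-(1 / 2) : ℝ) (1 / 2), g (zp u δ) *
      ENNReal.ofReal (Real.exp u / (1 + lam ^ 2 * u ^ 2)) ≤
    ∑ k ∈ Finset.range (N + 1), ENNReal.ofReal (11 * ((4 : ℝ)⁻¹) ^ k) *
      JG g (lam * (1 / 2) ^ k) δ + ENNReal.ofReal (2 * ((4 : ℝ)⁻¹) ^ N) * JG g 1 δ := by
  have hpt : ∀ u ∈ Icc (-(1 / 2) : ℝ) (1 / 2), g (zp u δ) *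
      ENNReal.ofReal (Real.exp u / (1 + lam ^ 2 * u ^ 2)) ≤
      ∑ k ∈ Finset.range (N + 1), ENNReal.ofReal (11 * ((4 : ℝ)⁻¹) ^ k) *
        (g (zp u δ) *
          ENNReal.ofReal (Real.exp (-((lam * (1 / 2) ^ k) ^ 2 * u ^ 2) + u))) +
        ENNReal.ofReal (2 * ((4 : ℝ)⁻¹) ^ N) *
          (g (zp u δ) * ENNReal.ofReal (Real.exp (-(1 ^ 2 * u ^ 2) + u))) := by
    intro u hu
    have hu2 : u ^ 2 ≤ 1 / 4 := by
      have := abs_le.2 hu
      rw [← sq_abs]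
      nlinarith [abs_nonneg u]
    have hw := weight (lam * u) N
    have e1 : Real.exp u / (1 + lam ^ 2 * u ^ 2) ≤
        ∑ k ∈ Finset.range (N + 1), 11 * ((4 : ℝ)⁻¹) ^ k *
          Real.exp (-((lam * (1 / 2) ^ k) ^ 2 * u ^ 2) + u) +
        2 * ((4 : ℝ)⁻¹) ^ N * Real.exp (-(1 ^ 2 * u ^ 2) + u) := by
      have e2 : ∀ k : ℕ, Real.exp u * (((4 : ℝ)⁻¹) ^ k *
          Real.exp (-((lam * u) ^ 2 * ((4 : ℝ)⁻¹) ^ k))) =
          ((4 : ℝ)⁻¹) ^ k * Real.exp (-((lam * (1 / 2) ^ k) ^ 2 * u ^ 2) + u) := by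
        intro k
        have e3 : ((4 : ℝ)⁻¹) ^ k = ((1 / 2 : ℝ) ^ k) ^ 2 := by
          rw [← pow_mul, mul_comm, pow_mul]
          norm_num
        rw [mul_left_comm, ← Real.exp_add]
        congr 2
        rw [e3]
        ring
      have e4 : Real.exp u ≤ 2 * Real.exp (-(1 ^ 2 * u ^ 2) + u) := by
        have e5 : Real.exp u = Real.exp (u ^ 2) * Real.exp (-(1 ^ 2 * u ^ 2) + u) := by
          rw [← Real.exp_add]
          congr 1
          ring
        rw [e5]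
        exact mul_le_mul_of_nonneg_right ((Real.exp_le_exp.2 hu2).trans exp_quarter)
          (Real.exp_pos _).le
      calc Real.exp u / (1 + lam ^ 2 * u ^ 2)
          = Real.exp u * (1 / (1 + (lam * u) ^ 2)) := by
            rw [mul_pow]
            ring
        _ ≤ Real.exp u * (11 * ∑ k ∈ Finset.range (N + 1), ((4 : ℝ)⁻¹) ^ k *
              Real.exp (-((lam * u) ^ 2 * ((4 : ℝ)⁻¹) ^ k)) + ((4 : ℝ)⁻¹) ^ N) :=
            mul_le_mul_of_nonneg_left hw (Real.exp_pos _).le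
        _ = ∑ k ∈ Finset.range (N + 1), 11 * ((4 : ℝ)⁻¹) ^ k *
              Real.exp (-((lam * (1 / 2) ^ k) ^ 2 * u ^ 2) + u) +
            ((4 : ℝ)⁻¹) ^ N * Real.exp u := by
            rw [mul_add, Finset.mul_sum, Finset.mul_sum]
            congr 1
            · refine Finset.sum_congr rfl fun k _ => ?_
              rw [mul_left_comm, e2 k]
              ring
            · ring
        _ ≤ _ := by
            have : ((4 : ℝ)⁻¹) ^ N * Real.exp u ≤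
                ((4 : ℝ)⁻¹) ^ N * (2 * Real.exp (-(1 ^ 2 * u ^ 2) + u)) :=
              mul_le_mul_of_nonneg_left e4 (by positivity)
            linarith
    have e6 : ENNReal.ofReal (Real.exp u / (1 + lam ^ 2 * u ^ 2)) ≤
        ∑ k ∈ Finset.range (N + 1), ENNReal.ofReal (11 * ((4 : ℝ)⁻¹) ^ k) *
          ENNReal.ofReal (Real.exp (-((lam * (1 / 2) ^ k) ^ 2 * u ^ 2) + u)) +
        ENNReal.ofReal (2 * ((4 : ℝ)⁻¹) ^ N) *
          ENNReal.ofReal (Real.exp (-(1 ^ 2 * u ^ 2) + u)) := by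
      refine (ENNReal.ofReal_le_ofReal e1).trans (le_of_eq ?_)
      rw [ENNReal.ofReal_add (Finset.sum_nonneg fun k _ => by positivity) (by positivity),
        ENNReal.ofReal_sum_of_nonneg fun k _ => by positivity,
        ENNReal.ofReal_mul (by positivity)]
      congr 1
      refine Finset.sum_congr rfl fun k _ => ?_
      rw [ENNReal.ofReal_mul (by positivity)]
    refine (mul_le_mul' (le_refl (g (zp u δ))) e6).trans (le_of_eq ?_)
    rw [mul_add, Finset.mul_sum]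
    congr 1
    · refine Finset.sum_congr rfl fun k _ => ?_
      rw [mul_left_comm]
    · rw [mul_left_comm]
  refine (setLIntegral_mono' measurableSet_Icc hpt).trans (le_of_eq ?_)
  rw [lintegral_add_left (Finset.measurable_sum _ fun k _ => (meas_Ju hg _ δ).const_mul _),
    lintegral_finsetSum _ fun k _ => (meas_Ju hg _ δ).const_mul _,
    lintegral_const_mul _ (meas_Ju hg _ δ)]
  congr 1
  refine Finset.sum_congr rfl fun k _ => ?_
  rw [lintegral_const_mul _ (meas_Ju hg _ δ)]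
  rfl

lemma meas_strip (a b R T : ℝ) : MeasurableSet (strip a b R T) := by
  have m1 : MeasurableSet {z : ℂ | a / T ≤ z.re} :=
    measurableSet_le measurable_const Complex.measurable_re
  have m2 : MeasurableSet {z : ℂ | z.re ≤ b / T} :=
    measurableSet_le Complex.measurable_re measurable_const
  have m3 : MeasurableSet {z : ℂ | |z.im| ≤ R} :=
    measurableSet_le (f := fun z : ℂ => |z.im|) (g := fun _ => R)
      Complex.measurable_im.norm measurable_const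
  exact m1.inter (m2.inter m3)

/-- The change of variables with the Cauchy weight. -/
theorem chvw {a b R κ₀ C₂ : ℝ} (hκ : 0 < κ₀) (hC₂ : 0 < C₂)
    (hchv : ∀ (g : ℂ → ℝ≥0∞), Measurable g → ∀ T H : ℝ, 10 ≤ T → 1 ≤ H → H ≤ T →
      ∫⁻ δ in Icc (1 / T) (2 / T), ∫⁻ u in Icc (-(1 / 2) : ℝ) (1 / 2),
        g (zp u δ) * ENNReal.ofReal (Real.exp (-(H ^ 2 * u ^ 2) + u)) ≤
      ENNReal.ofReal C₂ * ∫⁻ z in {z : ℂ | a / T ≤ z.re ∧ z.re ≤ b / T ∧ |z.im| ≤ R},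
        g z * ENNReal.ofReal (Real.exp (-(κ₀ * H ^ 2 * z.im ^ 2))))
    {g : ℂ → ℝ≥0∞} (hg : Measurable g) {T lam : ℝ} (hT : 10 ≤ T) (hl : 1 ≤ lam)
    (hlT : lam ≤ T) :
    ∫⁻ δ in Icc (1 / T) (2 / T), ∫⁻ u in Icc (-(1 / 2) : ℝ) (1 / 2), g (zp u δ) *
      ENNReal.ofReal (Real.exp u / (1 + lam ^ 2 * u ^ 2)) ≤
    ENNReal.ofReal (C₂ * (30 + 8 * (1 + κ₀ * R ^ 2))) * ∫⁻ z in strip a b R T,
      g z * ENNReal.ofReal (1 / (1 + κ₀ * lam ^ 2 * z.im ^ 2)) := by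
  have hlam0 : 0 < lam := by linarith
  set C₅ : ℝ := 30 + 8 * (1 + κ₀ * R ^ 2) with hC₅
  have hC₅0 : 0 < C₅ := by positivity
  obtain ⟨N, hN1, hN2⟩ := exists_nat_pow_near hl (by norm_num : (1 : ℝ) < 2)
  have hem : ∀ H' : ℝ, Measurable fun z : ℂ =>
      ENNReal.ofReal (Real.exp (-(κ₀ * H' ^ 2 * z.im ^ 2))) := by
    intro H'
    refine Measurable.ennreal_ofReal (Continuous.measurable ?_)
    fun_prop
  have hme : ∀ H' : ℝ, Measurable fun z : ℂ => g z *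
      ENNReal.ofReal (Real.exp (-(κ₀ * H' ^ 2 * z.im ^ 2))) := fun H' => hg.mul (hem H')
  have hJ : ∀ H' : ℝ, 1 ≤ H' → H' ≤ T → ∫⁻ δ in Icc (1 / T) (2 / T), JG g H' δ ≤
      ENNReal.ofReal C₂ * ∫⁻ z in {z : ℂ | a / T ≤ z.re ∧ z.re ≤ b / T ∧ |z.im| ≤ R},
        g z * ENNReal.ofReal (Real.exp (-(κ₀ * H' ^ 2 * z.im ^ 2))) := fun H' hH1 hHT =>
    hchv g hg T H' hT hH1 hHT
  have hHk : ∀ k ∈ Finset.range (N + 1), 1 ≤ lam * (1 / 2) ^ k ∧ lam * (1 / 2) ^ k ≤ T := by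
    intro k hk
    have hk' : k ≤ N := Nat.lt_succ_iff.1 (Finset.mem_range.1 hk)
    constructor
    · rw [one_div, inv_pow, ← div_eq_mul_inv, le_div_iff₀ (by positivity), one_mul]
      exact (pow_le_pow_right₀ (by norm_num) hk').trans hN1
    · refine (mul_le_of_le_one_right hlam0.le ?_).trans hlT
      exact pow_le_one₀ (by norm_num) (by norm_num)
  refine (lintegral_mono fun δ => split_le hg lam δ N).trans ?_
  have e0 : ∫⁻ δ in Icc (1 / T) (2 / T), (∑ k ∈ Finset.range (N + 1),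
      ENNReal.ofReal (11 * ((4 : ℝ)⁻¹) ^ k) *
      JG g (lam * (1 / 2) ^ k) δ + ENNReal.ofReal (2 * ((4 : ℝ)⁻¹) ^ N) * JG g 1 δ) ≤
      ENNReal.ofReal C₂ * ∫⁻ z in {z : ℂ | a / T ≤ z.re ∧ z.re ≤ b / T ∧ |z.im| ≤ R},
        (∑ k ∈ Finset.range (N + 1), ENNReal.ofReal (11 * ((4 : ℝ)⁻¹) ^ k) *
          (g z * ENNReal.ofReal (Real.exp (-(κ₀ * (lam * (1 / 2) ^ k) ^ 2 * z.im ^ 2)))) +
        ENNReal.ofReal (2 * ((4 : ℝ)⁻¹) ^ N) *
          (g z * ENNReal.ofReal (Real.exp (-(κ₀ * 1 ^ 2 * z.im ^ 2))))) := by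
    rw [lintegral_add_left (Finset.measurable_sum _ fun k _ => (hme _).const_mul _),
      lintegral_finsetSum _ fun k _ => (hme _).const_mul _,
      lintegral_const_mul _ (hme _), mul_add, Finset.mul_sum]
    rw [lintegral_add_left (Finset.measurable_sum _ fun k _ => (meas_JG hg _).const_mul _),
      lintegral_finsetSum _ fun k _ => (meas_JG hg _).const_mul _,
      lintegral_const_mul _ (meas_JG hg _)]
    refine add_le_add (Finset.sum_le_sum fun k hk => ?_) ?_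
    · rw [lintegral_const_mul _ (meas_JG hg _), lintegral_const_mul _ (hme _),
        mul_left_comm]
      exact mul_le_mul' le_rfl (hJ _ (hHk k hk).1 (hHk k hk).2)
    · rw [mul_left_comm]
      exact mul_le_mul' le_rfl (hJ 1 le_rfl (by linarith))
  refine e0.trans ?_
  have e1 : ∫⁻ z in {z : ℂ | a / T ≤ z.re ∧ z.re ≤ b / T ∧ |z.im| ≤ R},
        (∑ k ∈ Finset.range (N + 1), ENNReal.ofReal (11 * ((4 : ℝ)⁻¹) ^ k) *
          (g z * ENNReal.ofReal (Real.exp (-(κ₀ * (lam * (1 / 2) ^ k) ^ 2 * z.im ^ 2)))) +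
        ENNReal.ofReal (2 * ((4 : ℝ)⁻¹) ^ N) *
          (g z * ENNReal.ofReal (Real.exp (-(κ₀ * 1 ^ 2 * z.im ^ 2))))) ≤
      ∫⁻ z in strip a b R T, ENNReal.ofReal C₅ *
        (g z * ENNReal.ofReal (1 / (1 + κ₀ * lam ^ 2 * z.im ^ 2))) := by
    refine setLIntegral_mono' (meas_strip a b R T) fun z hz => ?_
    have e2 := wsum hκ hl hz.2.2 N hN2
    have e3 : ∑ k ∈ Finset.range (N + 1), ENNReal.ofReal (11 * ((4 : ℝ)⁻¹) ^ k) *
          (g z * ENNReal.ofReal (Real.exp (-(κ₀ * (lam * (1 / 2) ^ k) ^ 2 * z.im ^ 2)))) +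
        ENNReal.ofReal (2 * ((4 : ℝ)⁻¹) ^ N) *
          (g z * ENNReal.ofReal (Real.exp (-(κ₀ * 1 ^ 2 * z.im ^ 2)))) =
        g z * ENNReal.ofReal (∑ k ∈ Finset.range (N + 1), 11 * ((4 : ℝ)⁻¹) ^ k *
      Real.exp (-(κ₀ * (lam * (1 / 2) ^ k) ^ 2 * z.im ^ 2)) +
    2 * ((4 : ℝ)⁻¹) ^ N * Real.exp (-(κ₀ * 1 ^ 2 * z.im ^ 2))) := by
      rw [ENNReal.ofReal_add (Finset.sum_nonneg fun k _ => by positivity) (by positivity),
        ENNReal.ofReal_sum_of_nonneg fun k _ => by positivity, mul_add, Finset.mul_sum]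
      congr 1
      · refine Finset.sum_congr rfl fun k _ => ?_
        rw [mul_left_comm, ← ENNReal.ofReal_mul (by positivity)]
      · rw [mul_left_comm, ← ENNReal.ofReal_mul (by positivity)]
    rw [e3]
    refine (mul_le_mul' le_rfl (ENNReal.ofReal_le_ofReal e2)).trans (le_of_eq ?_)
    rw [mul_left_comm, ← ENNReal.ofReal_mul hC₅0.le]
    congr 2
    ring
  refine (mul_le_mul' le_rfl e1).trans (le_of_eq ?_)
  rw [lintegral_const_mul' _ _ ENNReal.ofReal_ne_top, ← mul_assoc, ← ENNReal.ofReal_mul hC₂.le]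

end Pool.Agent.Lib.MP_6bc78b_nt.GP.H6.Lowb
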