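import Pool.Agent.Lib.MP_6bc78b_nt.GP.H91.Boxk
import Pool.Agent.Lib.MP_6bc78b_nt.GP.H39.Avg9
import Pool.Agent.Lib.MP_6bc78b_nt.GP.H41.Tai9
import Pool.Agent.Lib.MP_6bc78b_nt.GP.H35.Are9
import Pool.Agent.Lib.MP_6bc78b_nt.GP.H34.Mid9
import Pool.Agent.Lib.MP_6bc78b_nt.GP.H92.Mel9
import Pool.Agent.Lib.MP_6bc78b_nt.GP.H78.Dec8
import Pool.Agent.Lib.MP_6bc78b_nt.GP.H69.Mvtx
import Pool.Agent.Lib.MP_6bc78b_nt.GP.H69.Sml8
import Pool.Agent.Lib.MP_6bc78b_nt.GP.H71.Cmb2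
import Pool.Agent.Lib.MP_6bc78b_nt.GP.H23.Basx
import Pool.Agent.Lib.MP_6bc78b_nt.GP.H43.Merx
import Pool.Agent.Lib.MP_6bc78b_nt.GP.H19.Polx
import Pool.Agent.Lib.MP_6bc78b_nt.GP.H42.Rayx
import Pool.Agent.Lib.MP_6bc78b_nt.GP.H45.Rng8
import Pool.Agent.Lib.MP_6bc78b_nt.GP.H99.Gxs
import Pool.Agent.Lib.MP_6bc78b_nt.GP.H99.Ker
import Pool.Agent.Lib.MP_6bc78b_nt.GP.H88.Smox
import Pool.Agent.Lib.MP_6bc78b_nt.GP.H74.Strx
import Pool.Agent.Lib.MP_6bc78b_nt.GP.H70.Ari0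
import Pool.Agent.Lib.MP_6bc78b_nt.GP.H70.Conk
import Pool.Agent.Lib.MP_6bc78b_nt.GP.H66.Prb6
import Pool.Agent.Lib.MP_6bc78b_nt.GP.H71.Cmbx
import Pool.Agent.Lib.MP_6bc78b_nt.GP.H68.High8
import Pool.Agent.Lib.MP_6bc78b_nt.GP.H17.Lftrk
import Pool.Agent.Lib.MP_6bc78b_nt.GP.H10.Goodx
import Pool.Agent.Lib.MP_6bc78b_nt.GP.H66.Med9L
import Pool.Agent.Lib.MP_6bc78b_nt.GP.H70.Med9h
import Pool.Agent.Lib.MP_6bc78b_nt.GP.H37.Rgtk
import Pool.Agent.Lib.MP_6bc78b_nt.GP.H6.Final5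
import Pool.Agent.Lib.MP_6bc78b_nt.GP.H91.Cel
import Pool.Agent.Lib.MP_6bc78b_nt.GP.H97.Mom6
import Pool.Agent.Lib.MP_6bc78b_nt.GP.H35.Chb9p
import Pool.Agent.Lib.MP_6bc78b_nt.GP.H35.Fin9q

/-! Project GP9: the final theorem (the simple zeros have a large derivative). -/

set_option autoImplicit false

namespace Pool.Agent.Lib.MP_6bc78b_nt.GP.H6

open Pool.Agent.Lib.MP_6bc78b_nt Pool.Agent.Lib.MP_6bc78b_nt.GP.G7 Pool.Agent.Lib.MP_6bc78b_nt.GP.G8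
  Pool.Agent.Lib.MP_6bc78b_nt.GP.G9

/-- The arithmetic side: the energy of `E` on the strip. -/
theorem area9 : ARE9Statement := by
  have dx2 : DX2Statement := H38.dx2
  have are : ARE5Statement :=
    are5 (ray5 (mel H82.gami dx2 H16.grw H27.gamb) H13.plc (dms5 H64.zms H27.gamb))
  have mv : MVTXStatement := G7.mvtx
  have bas : BASXStatement := G7.basx
  have cmb : CMB2XStatement := H71.cmb2x mv
  have mel9 : MEL9Statement := H92M.mel9 (H78.dec8 mv bas) (H69.sml8 mv bas) (H10G.goodx mv bas) 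
    (H68.high8 H66.prbx (H71.cmbx mv) mv bas) (H66.med9l cmb bas) (H70M.med9h cmb bas) G7.merx
  have mid9 : MID9Statement := H34M.mid9 (G7.H19.polx (H42.rayx H82.gami H13.plc H27.gamb)) mel9
    H45.rng8 GX99.gxs G7.smox G7.strx bas H70.ari0
  exact G9.are9 mid9 are G7.strx bas H70.ari0

/-- Simple zeros with a large derivative in almost all windows of length `C log log log T`, all
lengths at once. -/
theorem count9q : CountStatement9q := by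
  have dx2 : DX2Statement := H38.dx2
  have etr : ETRStatement := H91.etr dx2
  have gamc : GAMCStatement := H37.gamc
  have ker : KERStatement := H99K.ker
  have con : CONKStatement := H70K.conk (H37K.rgtk ker H82.gami dx2) dx2 gamc
  exact H35F.fin9q (H35P.chb9p H79.dx1 (G9.avg9 area9 H76.chv dx2 H41T.tai9)
    (H91B.boxk ker H13.plc etr) con (H17.lftrk H35.feq H17.gslk9 omd dx2) gamc etr ker H91E.cel
    (H97.mom6 H64.zms))

theorem mult_one {γ : ℝ} (h0 : hardyZ γ = 0) (h1 : deriv hardyZ γ ≠ 0) : zeroMult γ = 1 := by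
  have m1 : 1 ∈ {m : ℕ | iteratedDeriv m hardyZ γ ≠ 0} := by
    show iteratedDeriv 1 hardyZ γ ≠ 0
    rwa [iteratedDeriv_one]
  have h2 : sInf {m : ℕ | iteratedDeriv m hardyZ γ ≠ 0} ≤ 1 := Nat.sInf_le m1
  have h3 := Nat.sInf_mem ⟨1, m1⟩
  have h4 : sInf {m : ℕ | iteratedDeriv m hardyZ γ ≠ 0} ≠ 0 := by
    intro h
    rw [h] at h3
    exact h3 (by rw [iteratedDeriv_zero, h0])
  unfold zeroMult
  omega

/-- The same with `Z(γ) = 0` in place of multiplicity one. -/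
theorem window (hRH : RiemannHypothesis) :
    ∃ C₀ : ℝ, ∀ ε : ℝ, 0 < ε → ∃ c T₀ : ℝ, 0 < c ∧ 1 < T₀ ∧ ∀ T : ℝ, T₀ ≤ T →
      MeasureTheory.volume {t : ℝ | 0 ≤ t ∧ t ≤ T ∧
        ∃ h : ℝ, C₀ * Real.log (Real.log (Real.log T)) ≤ h ∧ h ≤ T ∧
          (({γ : ℝ | t < γ ∧ γ < t + h ∧ hardyZ γ = 0 ∧
            c * Real.log T ≤ |deriv hardyZ γ|}.ncard : ℕ) : ℝ) ≤ c * h} ≤
        ENNReal.ofReal (ε * T) := by
  obtain ⟨C₀, -, h9⟩ := count9q hRH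
  refine ⟨C₀, fun ε hε => ?_⟩
  obtain ⟨c, hc, T₀, hT₀, h9⟩ := h9 ε hε
  refine ⟨c, T₀, hc, by linarith, fun T hT => ?_⟩
  have hL : 0 < Real.log T := Real.log_pos (by linarith)
  have e : ∀ t h : ℝ, {γ : ℝ | t < γ ∧ γ < t + h ∧ hardyZ γ = 0 ∧
      c * Real.log T ≤ |deriv hardyZ γ|} = {γ : ℝ | t < γ ∧ γ < t + h ∧ zeroMult γ = 1 ∧
      c * Real.log T ≤ |deriv hardyZ γ|} := by
    intro t h
    ext γ
    constructor
    · rintro ⟨h1, h2, h3, h4⟩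
      refine ⟨h1, h2, mult_one h3 ?_, h4⟩
      intro h5
      rw [h5, abs_zero] at h4
      have := mul_pos hc hL
      linarith
    · rintro ⟨h1, h2, h3, h4⟩
      refine ⟨h1, h2, ?_, h4⟩
      by_contra h0
      have m0 : 0 ∈ {m : ℕ | iteratedDeriv m hardyZ γ ≠ 0} := by
        show iteratedDeriv 0 hardyZ γ ≠ 0
        rwa [iteratedDeriv_zero]
      have h5 : sInf {m : ℕ | iteratedDeriv m hardyZ γ ≠ 0} ≤ 0 := Nat.sInf_le m0
      unfold zeroMult at h3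
      omega
  simp only [e]
  exact h9 T hT

end Pool.Agent.Lib.MP_6bc78b_nt.GP.H6
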