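import Pool.Agent.Lib.MP_6bc78b_nt.GP.H43.Defs10t
import Pool.Agent.Lib.MP_6bc78b_nt.GP.H6.Final9p

/-! Project GP10: from `zeroMult γ = 1` to `Z(γ) = 0` in the definition of the poor points. -/

set_option autoImplicit false

namespace Pool.Agent.Lib.MP_6bc78b_nt.GP.H6

open Pool.Agent.Lib.MP_6bc78b_nt

/-- A positive threshold: zeros and simple zeros. -/
theorem set_eq {t h m : ℝ} (hm : 0 < m) : {γ : ℝ | t < γ ∧ γ < t + h ∧ hardyZ γ = 0 ∧
      m ≤ |deriv hardyZ γ|} = {γ : ℝ | t < γ ∧ γ < t + h ∧ zeroMult γ = 1 ∧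
      m ≤ |deriv hardyZ γ|} := by
  ext γ
  constructor
  · rintro ⟨h1, h2, h3, h4⟩
    refine ⟨h1, h2, H6.mult_one h3 ?_, h4⟩
    intro h5
    rw [h5, abs_zero] at h4
    linarith
  · rintro ⟨h1, h2, h3, h4⟩
    refine ⟨h1, h2, ?_, h4⟩
    by_contra h0
    have m0 : 0 ∈ {m : ℕ | iteratedDeriv m hardyZ γ ≠ 0} := by
      show iteratedDeriv 0 hardyZ γ ≠ 0
      rwa [iteratedDeriv_zero]
    have h5 : sInf {m : ℕ | iteratedDeriv m hardyZ γ ≠ 0} ≤ 0 := Nat.sInf_le m0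
    unfold zeroMult at h3
    omega

/-- The last step. -/
theorem last10t (h10 : G10.Count10TStatement) (hRH : RiemannHypothesis) :
    ∀ ε : ℝ, 0 < ε → ∃ h₀ : ℝ, 1 < h₀ ∧ ∀ T : ℝ,
      MeasureTheory.volume {t : ℝ | 0 ≤ t ∧ t ≤ T ∧ ∃ h : ℝ, h₀ ≤ h ∧ h ≤ T ∧
        (({γ : ℝ | t < γ ∧ γ < t + h ∧ hardyZ γ = 0 ∧
          Real.log T * Real.exp (Real.sqrt
            (Real.log (Real.log T) * Real.log (Real.log (Real.log T)))) ≤
              |deriv hardyZ γ|}.ncard : ℕ) : ℝ) ≤ h / h₀} ≤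
      ENNReal.ofReal (ε * T) := by
  intro ε hε
  obtain ⟨h₁, hh₁, H⟩ := h10 hRH ε hε
  refine ⟨max h₁ 2, lt_of_lt_of_le (by norm_num) (le_max_right _ _), fun T => ?_⟩
  refine (MeasureTheory.measure_mono ?_).trans (H T)
  rintro t ⟨ht0, htT, h, hh, hhT, hc⟩
  have hh1 : h₁ ≤ h := (le_max_left _ _).trans hh
  have hh2 : 2 ≤ h := (le_max_right _ _).trans hh
  refine ⟨ht0, htT, h, hh1, hhT, ?_⟩
  have hL : 0 < Real.log T := Real.log_pos (by linarith)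
  rw [← set_eq (by positivity)]
  refine hc.trans ?_
  exact div_le_div_of_nonneg_left (by linarith) hh₁ (le_max_left _ _)

end Pool.Agent.Lib.MP_6bc78b_nt.GP.H6
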