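import Pool.Agent.Lib.MP_6bc78b_nt.GP.H43.Defs10b
import Pool.Agent.Lib.MP_6bc78b_nt.GP.H3.Defs10
import Pool.Agent.Lib.MP_6bc78b_nt.GP.H41.TailM
import Pool.Agent.Lib.MP_6bc78b_nt.GP.H6.Chvw

/-! Project GP10, row LOWB: the low frequencies. -/

set_option autoImplicit false

open Complex Filter Topology MeasureTheory ArithmeticFunction Set
open scoped ENNReal

namespace Pool.Agent.Lib.MP_6bc78b_nt.GP.H6.Lowb

open Pool.Agent.Lib.MP_6bc78b_nt.MS Pool.Agent.Lib.MP_6bc78b_nt.MS.P1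
open Pool.Agent.Lib.MP_6bc78b_nt.GP.G7 Pool.Agent.Lib.MP_6bc78b_nt.GP.H4
  Pool.Agent.Lib.MP_6bc78b_nt.GP.G10

lemma log_sq_le (n : ℕ) : (1 + Real.log n) ^ 2 ≤ 4 * (1 + (n : ℝ)) := by
  rcases Nat.eq_zero_or_pos n with h | h
  · simp [h]
  · have hn : (1 : ℝ) ≤ n := by exact_mod_cast h
    have hn0 : (0 : ℝ) < n := by linarith
    have h1 : Real.log n ≤ 2 * (Real.sqrt n - 1) := by
      have h2 := Real.log_le_sub_one_of_pos (Real.sqrt_pos.2 hn0)
      rw [Real.log_sqrt hn0.le] at h2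
      linarith
    have h2 : 0 ≤ Real.log n := Real.log_nonneg hn
    have h3 : Real.sqrt n ^ 2 = n := Real.sq_sqrt hn0.le
    have h4 : 1 ≤ Real.sqrt n := Real.one_le_sqrt.2 hn
    nlinarith

lemma sm_le {S : Finset ℕ} {β : ℕ → ℝ} (hβ : ∀ m, 0 ≤ β m) (n : ℕ) :
    0 ≤ H41B.sm S β n ∧ H41B.sm S β n ≤ ∑ m ∈ S, β m := by
  unfold H41B.sm
  constructor
  · refine Finset.sum_nonneg fun m _ => ?_
    split_ifs
    · exact hβ m
    · exact le_rfl
  · refine Finset.sum_le_sum fun m _ => ?_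
    split_ifs
    · exact le_rfl
    · exact hβ m

lemma grow (A B : ℝ) {S : Finset ℕ} {β : ℕ → ℝ} (hS : ∀ m ∈ S, 1 ≤ m) (hβ : ∀ m, 0 ≤ β m) :
    ∃ D : ℝ, ∀ n : ℕ, |am A B S β n - bn A B n| ≤ D * (1 + n) := by
  obtain ⟨-, -, C, hC, hb⟩ := H38.dx2 A B
  refine ⟨C * 4 * (∑ m ∈ S, β m + 1), fun n => ?_⟩
  have h1 : |am A B S β n| ≤ C * (1 + Real.log n) ^ 2 * H41B.sm S β n :=
    H41B.am_le hb hC.le hS hβ n
  have h2 := log_sq_le n
  obtain ⟨h3, h4⟩ := sm_le (S := S) hβ n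
  have h5 := hb n
  have hC1 : C * (1 + Real.log n) ^ 2 ≤ C * (4 * (1 + (n : ℝ))) :=
    mul_le_mul_of_nonneg_left h2 hC.le
  have h6 : C * (1 + Real.log n) ^ 2 * H41B.sm S β n ≤ C * (4 * (1 + (n : ℝ))) * ∑ m ∈ S, β m :=
    mul_le_mul hC1 h4 h3 (by positivity)
  calc |am A B S β n - bn A B n| ≤ |am A B S β n| + |bn A B n| := abs_sub _ _
    _ ≤ C * (4 * (1 + (n : ℝ))) * ∑ m ∈ S, β m + C * (4 * (1 + (n : ℝ))) :=
        add_le_add (h1.trans h6) (h5.trans hC1)
    _ = _ := by ring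

lemma diff_le (A B : ℝ) {S : Finset ℕ} (hS : ∀ m ∈ S, 1 ≤ m) (β : ℕ → ℝ) {z : ℂ}
    (hz : 0 < z.re) :
    ‖EM A B S β z‖ ^ 2 ≤ 2 * ‖EE A B z‖ ^ 2 +
      2 * ‖ES (fun n => am A B S β n - bn A B n) z‖ ^ 2 := by
  have h1 : HasSum (fun n : ℕ => (am A B S β n : ℂ) * Complex.exp (-(n * z)))
      (EM A B S β z) := H41B.hasSum_EM A B hS β hz
  have h2 : HasSum (fun n : ℕ => (bn A B n : ℂ) * Complex.exp (-(n * z)))
      (EE A B z) := (H4.summable_EE H38.dx2 A B hz).hasSum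
  have h3 := h1.sub h2
  have h4 : ES (fun n => am A B S β n - bn A B n) z = EM A B S β z - EE A B z := by
    rw [← h3.tsum_eq]
    unfold ES
    refine tsum_congr fun n => ?_
    push_cast
    ring
  have h5 : EM A B S β z = EE A B z + ES (fun n => am A B S β n - bn A B n) z := by
    rw [h4]
    ring
  rw [h5]
  have h6 := norm_add_le (EE A B z) (ES (fun n => am A B S β n - bn A B n) z)
  have h7 := norm_nonneg (EE A B z)
  have h8 := norm_nonneg (ES (fun n => am A B S β n - bn A B n) z)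
  have h9 := norm_nonneg (EE A B z + ES (fun n => am A B S β n - bn A B n) z)
  nlinarith [sq_nonneg (‖EE A B z‖ - ‖ES (fun n => am A B S β n - bn A B n) z‖)]

/-- **LOWB**. -/
theorem lowb (har : AREKStatement) (hchv : CHVStatement) (hstr : STRXStatement)
    (htk : TKBSStatement) : LOWBStatement := by
  intro hRH A B D hD ε hε
  obtain ⟨a, b, R, κ₀, C₂, ha, hab, hR, hκ, hC₂, hchv⟩ := hchv
  obtain ⟨-, -, C, hC, hb⟩ := H38.dx2 A B
  set K : ℝ := C₂ * (30 + 8 * (1 + κ₀ * R ^ 2)) with hK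
  have hK0 : 0 < K := by positivity
  obtain ⟨Cs, hCs, hstr⟩ := hstr a b R ha hab hR
  obtain ⟨Ct, hCt, htk⟩ := htk A B a ha
  obtain ⟨H0, T₁, hH0, hT₁, har⟩ := har hRH A B D hD a b R κ₀ (ε / (8 * K)) ha hab hR hκ
    (by positivity)
  set e₂ : ℝ := ε / (16 * K * Cs * Ct) with he₂
  have he₂0 : 0 < e₂ := by positivity
  obtain ⟨T₂, hT₂, htk⟩ := htk e₂ he₂0
  set ν : ℝ := min 1 e₂ with hν
  have hν0 : 0 < ν := lt_min one_pos he₂0
  have hν1 : ν ≤ 1 := min_le_left _ _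
  have hν2 : ν ≤ e₂ := min_le_right _ _
  set CL : ℝ := (C ^ 2 * 2 * 34992 * Real.exp 20) * ∑' k : ℤ, Real.exp (-|(k : ℝ)|) with hCL
  have hCL0 : 0 ≤ CL := by
    have : 0 ≤ ∑' k : ℤ, Real.exp (-|(k : ℝ)|) := tsum_nonneg fun k => (Real.exp_pos _).le
    positivity
  refine ⟨ν, max 1 (max H0 (16 * Real.exp 16 * CL / ε)), hν0, hν1, le_max_left _ _,
    fun lam hlam => ?_⟩
  have hlam1 : 1 ≤ lam := (le_max_left _ _).trans hlam
  have hlamH : H0 ≤ lam := (le_max_left _ _).trans ((le_max_right _ _).trans hlam)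
  have hlamC : 16 * Real.exp 16 * CL / ε ≤ lam :=
    (le_max_right _ _).trans ((le_max_right _ _).trans hlam)
  have hlam0 : 0 < lam := by linarith
  obtain ⟨T₃, hT₃⟩ := eventually_atTop.1 (Real.tendsto_log_atTop.eventually_ge_atTop lam)
  refine ⟨max T₁ (max T₂ T₃), lt_max_of_lt_left hT₁, fun T S β hT hM => ?_⟩
  have hTT₁ : T₁ ≤ T := (le_max_left _ _).trans hT
  have hTT₂ : T₂ ≤ T := (le_max_left _ _).trans ((le_max_right _ _).trans hT)
  have hTT₃ : T₃ ≤ T := (le_max_right _ _).trans ((le_max_right _ _).trans hT)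
  have hT10 : 10 < T := lt_of_lt_of_le hT₁ hTT₁
  have hT0 : 0 < T := by linarith
  have hlT : lam ≤ Real.log T := hT₃ T hTT₃
  have hlamT : lam ≤ T := by
    refine hlT.trans ?_
    have := Real.log_le_sub_one_of_pos hT0
    linarith
  have hL0 : 0 < Real.log T := by linarith
  set LL : ℝ := Real.log T ^ 4 with hLL
  have hLL0 : 0 < LL := by positivity
  have hlcm : ∑ m ∈ S, ∑ m' ∈ S, β m * β m' / (Nat.lcm m m' : ℝ) ≤ 2 :=
    hM.sum_lcm.trans (by linarith)
  have hS := hM.one_le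
  have hβ := hM.nonneg
  set α : ℕ → ℝ := fun n => am A B S β n - bn A B n with hα
  have hgM := H41B.measurable_gM A B hS β
  have hgE : Measurable (gE A B) := measurable_gE H38.dx2 A B
  have hws : Measurable fun z : ℂ =>
      ENNReal.ofReal (1 / (1 + κ₀ * lam ^ 2 * z.im ^ 2)) := by
    refine Measurable.ennreal_ofReal (Continuous.measurable ?_)
    have : ∀ z : ℂ, 1 + κ₀ * lam ^ 2 * z.im ^ 2 ≠ 0 := fun z => by positivity
    fun_prop (disch := exact this _)
  have hgw : Measurable fun z : ℂ => gE A B z *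
      ENNReal.ofReal (1 / (1 + κ₀ * lam ^ 2 * z.im ^ 2)) := hgE.mul hws
  -- the strip
  have hstrip : ∫⁻ z in strip a b R T,
      H41B.gM A B S β z * ENNReal.ofReal (1 / (1 + κ₀ * lam ^ 2 * z.im ^ 2)) ≤
      ENNReal.ofReal (ε / (2 * K) * LL) := by
    have h1 : ∫⁻ z in strip a b R T,
        H41B.gM A B S β z * ENNReal.ofReal (1 / (1 + κ₀ * lam ^ 2 * z.im ^ 2)) ≤
        ∫⁻ z in strip a b R T, (2 * (gE A B z *
          ENNReal.ofReal (1 / (1 + κ₀ * lam ^ 2 * z.im ^ 2))) +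
          2 * ENNReal.ofReal (‖ES α z‖ ^ 2)) := by
      refine setLIntegral_mono' (meas_strip a b R T) fun z hz => ?_
      have hpos : 0 < z.re := lt_of_lt_of_le (by positivity) hz.1
      have h2 := diff_le A B hS β hpos
      have h3 : H41B.gM A B S β z = ENNReal.ofReal (‖EM A B S β z‖ ^ 2) := by
        unfold H41B.gM
        rw [if_pos hpos]
        rfl
      have h4 : gE A B z = ENNReal.ofReal (‖EE A B z‖ ^ 2) := by
        unfold gE
        rw [if_pos hpos]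
      have hw0 : 0 ≤ 1 / (1 + κ₀ * lam ^ 2 * z.im ^ 2) := by positivity
      have hw1 : 1 / (1 + κ₀ * lam ^ 2 * z.im ^ 2) ≤ 1 := by
        rw [div_le_one (by positivity)]
        have : 0 ≤ κ₀ * lam ^ 2 * z.im ^ 2 := by positivity
        linarith
      rw [h3, h4, ← ENNReal.ofReal_mul (by positivity), ← ENNReal.ofReal_mul (by positivity)]
      have h5 : (2 : ℝ≥0∞) = ENNReal.ofReal 2 := by simp
      rw [h5, ← ENNReal.ofReal_mul (by norm_num), ← ENNReal.ofReal_mul (by norm_num),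
        ← ENNReal.ofReal_add (by positivity) (by positivity)]
      refine ENNReal.ofReal_le_ofReal ?_
      calc ‖EM A B S β z‖ ^ 2 * (1 / (1 + κ₀ * lam ^ 2 * z.im ^ 2))
          ≤ (2 * ‖EE A B z‖ ^ 2 + 2 * ‖ES α z‖ ^ 2) *
            (1 / (1 + κ₀ * lam ^ 2 * z.im ^ 2)) := mul_le_mul_of_nonneg_right h2 hw0
        _ = 2 * (‖EE A B z‖ ^ 2 * (1 / (1 + κ₀ * lam ^ 2 * z.im ^ 2))) +
            2 * ‖ES α z‖ ^ 2 * (1 / (1 + κ₀ * lam ^ 2 * z.im ^ 2)) := by ring
        _ ≤ 2 * (‖EE A B z‖ ^ 2 * (1 / (1 + κ₀ * lam ^ 2 * z.im ^ 2))) +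
            2 * ‖ES α z‖ ^ 2 := by
            have : 2 * ‖ES α z‖ ^ 2 * (1 / (1 + κ₀ * lam ^ 2 * z.im ^ 2)) ≤
                2 * ‖ES α z‖ ^ 2 := mul_le_of_le_one_right (by positivity) hw1
            linarith
    refine h1.trans ?_
    rw [lintegral_add_left (hgw.const_mul 2), lintegral_const_mul _ hgw,
      lintegral_const_mul' _ _ (by simp)]
    have h2 : ∫⁻ z in strip a b R T, gE A B z *
        ENNReal.ofReal (1 / (1 + κ₀ * lam ^ 2 * z.im ^ 2)) ≤
        ENNReal.ofReal (ε / (8 * K) * LL) := by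
      refine le_trans (le_of_eq ?_) (har T lam hTT₁ hlamH hlT)
      refine setLIntegral_congr_fun (meas_strip a b R T) fun z hz => ?_
      have hpos : 0 < z.re := lt_of_lt_of_le (by positivity) hz.1
      unfold gE
      rw [if_pos hpos, ← ENNReal.ofReal_mul (by positivity)]
      congr 1
      ring
    have h3 : ∫⁻ z in strip a b R T, ENNReal.ofReal (‖ES α z‖ ^ 2) ≤
        ENNReal.ofReal (ε / (8 * K) * LL) := by
      refine (hstr T α hT10.le (grow A B hS hβ)).trans (ENNReal.ofReal_le_ofReal ?_)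
      have h4 := htk T ν S β hTT₂ hν0 hν1 hM
      have h5 : Cs / T * ∑' n : ℕ, α n ^ 2 * Real.exp (-(2 * a / T * n)) ≤
          Cs / T * (Ct * (ν + e₂) * T * Real.log T ^ 4) :=
        mul_le_mul_of_nonneg_left h4 (by positivity)
      refine h5.trans ?_
      have h6 : Cs / T * (Ct * (ν + e₂) * T * Real.log T ^ 4) = Cs * Ct * (ν + e₂) * LL := by
        rw [hLL]
        field_simp
      rw [h6]
      refine mul_le_mul_of_nonneg_right ?_ hLL0.le
      calc Cs * Ct * (ν + e₂) ≤ Cs * Ct * (e₂ + e₂) :=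
            mul_le_mul_of_nonneg_left (by linarith) (by positivity)
        _ = ε / (8 * K) := by
            rw [he₂]
            field_simp
            ring
    refine (add_le_add (mul_le_mul' le_rfl h2) (mul_le_mul' le_rfl h3)).trans (le_of_eq ?_)
    have h5 : (2 : ℝ≥0∞) = ENNReal.ofReal 2 := by simp
    rw [h5, ← ENNReal.ofReal_mul (by norm_num), ← ENNReal.ofReal_add (by positivity)
      (by positivity)]
    congr 1
    field_simp
    ring
  -- the inner part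
  have hin := chvw hκ hC₂ hchv hgM hT10.le hlam1 hlamT
  rw [← hK] at hin
  have hin2 : ∫⁻ δ in Icc (1 / T) (2 / T), ∫⁻ u in Icc (-(1 / 2) : ℝ) (1 / 2),
      H41B.gM A B S β (zp u δ) * ENNReal.ofReal (Real.exp u / (1 + lam ^ 2 * u ^ 2)) ≤
      ENNReal.ofReal (ε / 2 * LL) := by
    refine hin.trans ((mul_le_mul' le_rfl hstrip).trans (le_of_eq ?_))
    rw [← ENNReal.ofReal_mul hK0.le]
    congr 1
    field_simp
  -- the outer part
  have hout := H41B.Tail.line_le hb hC.le hS hβ hlcm hT10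
  have hmG := H41B.Tail.meas_J0 A B hS β
  have hpt : ∀ δ ∈ Icc (1 / T) (2 / T), ∫⁻ u in Icc (-1 : ℝ) 1,
      ENNReal.ofReal (‖EM A B S β (zp u δ)‖ ^ 2 * Real.exp u / (1 + lam ^ 2 * u ^ 2)) ≤
      ENNReal.ofReal (4 / lam ^ 2 * Real.exp 16) * (∫⁻ u : ℝ, H41B.Tail.GG A B S β (δ, u)) +
      ∫⁻ u in Icc (-(1 / 2) : ℝ) (1 / 2), H41B.gM A B S β (zp u δ) *
        ENNReal.ofReal (Real.exp u / (1 + lam ^ 2 * u ^ 2)) := by
    intro δ hδ
    have hδ0 : 0 < δ := lt_of_lt_of_le (by positivity) hδ.1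
    have hδh : δ ≤ 1 / 2 := by
      refine hδ.2.trans ?_
      rw [div_le_iff₀ hT0]
      linarith
    have hgMe : ∀ u : ℝ, H41B.gM A B S β (zp u δ) =
        ENNReal.ofReal (‖EM A B S β (zp u δ)‖ ^ 2) := by
      intro u
      unfold H41B.gM
      rw [if_pos (zp_re_pos hδ0 hδh)]
      rfl
    have hsub : Icc (-1 : ℝ) 1 ⊆ {u : ℝ | 1 / 2 < |u| ∧ |u| ≤ 1} ∪
        Icc (-(1 / 2) : ℝ) (1 / 2) := by
      intro u hu
      by_cases h : |u| ≤ 1 / 2
      · exact Or.inr (abs_le.1 h)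
      · exact Or.inl ⟨not_le.1 h, abs_le.2 hu⟩
    refine (lintegral_mono_set hsub).trans ((lintegral_union_le _ _ _).trans
      (add_le_add ?_ ?_))
    · have hms1 : MeasurableSet {u : ℝ | 1 / 2 < |u|} :=
        measurableSet_lt measurable_const (by fun_prop)
      have hms2 : MeasurableSet {u : ℝ | |u| ≤ 1} :=
        measurableSet_le (by fun_prop) measurable_const
      have hms : MeasurableSet {u : ℝ | 1 / 2 < |u| ∧ |u| ≤ 1} := hms1.inter hms2
      rw [← lintegral_const_mul' _ _ ENNReal.ofReal_ne_top]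
      refine le_trans ?_ (setLIntegral_le_lintegral {u : ℝ | 1 / 2 < |u| ∧ |u| ≤ 1} _)
      refine setLIntegral_mono' hms fun u hu => ?_
      unfold H41B.Tail.GG
      simp only
      rw [hgMe, ← ENNReal.ofReal_mul (by positivity), ← ENNReal.ofReal_mul (by positivity)]
      refine ENNReal.ofReal_le_ofReal ?_
      have hu2 : 1 / 4 ≤ u ^ 2 := by
        rw [← sq_abs]
        nlinarith [hu.1, abs_nonneg u]
      have e0 : (1 + lam ^ 2 * u ^ 2)⁻¹ ≤ 4 / lam ^ 2 := by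
        rw [inv_eq_one_div, div_le_div_iff₀ (by positivity) (by positivity)]
        nlinarith [mul_le_mul_of_nonneg_left hu2 (sq_nonneg lam)]
      have e1 : Real.exp u ≤ Real.exp 16 * Real.exp (-(16 * |u|) + u) := by
        rw [← Real.exp_add]
        refine Real.exp_le_exp.2 ?_
        linarith [hu.2]
      calc ‖EM A B S β (zp u δ)‖ ^ 2 * Real.exp u / (1 + lam ^ 2 * u ^ 2)
          = ‖EM A B S β (zp u δ)‖ ^ 2 * (Real.exp u * (1 + lam ^ 2 * u ^ 2)⁻¹) := by
            rw [div_eq_mul_inv]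
            ring
        _ ≤ ‖EM A B S β (zp u δ)‖ ^ 2 *
            (Real.exp 16 * Real.exp (-(16 * |u|) + u) * (4 / lam ^ 2)) := by
            refine mul_le_mul_of_nonneg_left ?_ (by positivity)
            exact mul_le_mul e1 e0 (by positivity) (by positivity)
        _ = _ := by ring
    · refine setLIntegral_mono' measurableSet_Icc fun u _ => ?_
      rw [hgMe, ← ENNReal.ofReal_mul (by positivity)]
      refine ENNReal.ofReal_le_ofReal (le_of_eq ?_)
      ring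
  refine (setLIntegral_mono' measurableSet_Icc hpt).trans ?_
  have hmG2 : Measurable fun δ : ℝ => ∫⁻ u : ℝ, H41B.Tail.GG A B S β (δ, u) :=
    hmG.lintegral_prod_right'
  rw [lintegral_add_left (hmG2.const_mul _), lintegral_const_mul _ hmG2]
  refine (add_le_add (mul_le_mul' le_rfl hout) hin2).trans ?_
  rw [← ENNReal.ofReal_mul (by positivity), ← ENNReal.ofReal_add (by positivity) (by positivity)]
  refine ENNReal.ofReal_le_ofReal ?_
  have e1 : 4 / lam ^ 2 * Real.exp 16 * CL ≤ ε / 4 := by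
    rw [div_le_iff₀ hε] at hlamC
    have e2 : 16 * Real.exp 16 * CL ≤ lam ^ 2 * ε := by
      refine hlamC.trans ?_
      refine mul_le_mul_of_nonneg_right ?_ hε.le
      nlinarith
    rw [div_mul_eq_mul_div, div_mul_eq_mul_div, div_le_div_iff₀ (by positivity) (by norm_num)]
    nlinarith
  have e3 : 4 / lam ^ 2 * Real.exp 16 * ((C ^ 2 * 2 * 34992 * Real.exp 20) * Real.log T ^ 4 *
      ∑' k : ℤ, Real.exp (-|(k : ℝ)|)) = 4 / lam ^ 2 * Real.exp 16 * CL * LL := by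
    rw [hCL, hLL]
    ring
  rw [e3]
  have e4 := mul_le_mul_of_nonneg_right e1 hLL0.le
  have e5 : 0 ≤ ε * LL := by positivity
  linarith

end Pool.Agent.Lib.MP_6bc78b_nt.GP.H6.Lowb
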