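import Pool.Agent.Lib.MP_6bc78b_nt.GP.H43.Defs10t
import Pool.Agent.Lib.MP_6bc78b_nt.GP.H6.Lowb

/-! Project GP10, row LOWT: the low frequencies, polynomial of length `T^η`. -/

set_option autoImplicit false

open Complex Filter Topology MeasureTheory ArithmeticFunction Set
open scoped ENNReal

namespace Pool.Agent.Lib.MP_6bc78b_nt.GP.H6.Lowb

open Pool.Agent.Lib.MP_6bc78b_nt.MS Pool.Agent.Lib.MP_6bc78b_nt.MS.P1
open Pool.Agent.Lib.MP_6bc78b_nt.GP.G7 Pool.Agent.Lib.MP_6bc78b_nt.GP.H4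
  Pool.Agent.Lib.MP_6bc78b_nt.GP.G10

/-- **LOWT**. -/
theorem lowt (har : AREKStatement) (hchv : CHVStatement) (hstr : STRXStatement)
    (htk : TKBTStatement) : LOWTStatement := by
  intro hRH A B D hD ε hε
  obtain ⟨a, b, R, κ₀, C₂, ha, hab, hR, hκ, hC₂, hchv⟩ := hchv
  obtain ⟨-, -, C, hC, hb⟩ := H38.dx2 A B
  set K : ℝ := C₂ * (30 + 8 * (1 + κ₀ * R ^ 2)) with hK
  have hK0 : 0 < K := by positivity
  obtain ⟨Cs, hCs, hstr⟩ := hstr a b R ha hab hR
  obtain ⟨Ct, hCt, htk⟩ := htk A B a ha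
  obtain ⟨H0, T₁, hH0, hT₁, har⟩ := har hRH A B D hD a b R κ₀ (ε / (8 * K)) ha hab hR hκ
    (by positivity)
  set e₂ : ℝ := ε / (24 * K * Cs * Ct) with he₂
  have he₂0 : 0 < e₂ := by positivity
  obtain ⟨T₂, hT₂, htk⟩ := htk e₂ he₂0
  set ν : ℝ := min 1 e₂ with hν
  have hν0 : 0 < ν := lt_min one_pos he₂0
  have hν1 : ν ≤ 1 := min_le_left _ _
  have hν2 : ν ≤ e₂ := min_le_right _ _
  set CL : ℝ := (C ^ 2 * 2 * 34992 * Real.exp 20) * ∑' k : ℤ, Real.exp (-|(k : ℝ)|) with hCL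
  have hCL0 : 0 ≤ CL := by
    have : 0 ≤ ∑' k : ℤ, Real.exp (-|(k : ℝ)|) := tsum_nonneg fun k => (Real.exp_pos _).le
    positivity
  set η : ℝ := min (1 / 100) e₂ with hη
  have hη0 : 0 < η := lt_min (by norm_num) he₂0
  have hη1 : η ≤ 1 / 100 := min_le_left _ _
  have hη2 : η ≤ e₂ := min_le_right _ _
  refine ⟨ν, η, max 1 (max H0 (16 * Real.exp 16 * CL / ε)), hν0, hν1, hη0, hη1, le_max_left _ _,
    fun lam hlam => ?_⟩
  have hlam1 : 1 ≤ lam := (le_max_left _ _).trans hlam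
  have hlamH : H0 ≤ lam := (le_max_left _ _).trans ((le_max_right _ _).trans hlam)
  have hlamC : 16 * Real.exp 16 * CL / ε ≤ lam :=
    (le_max_right _ _).trans ((le_max_right _ _).trans hlam)
  have hlam0 : 0 < lam := by linarith
  obtain ⟨T₃, hT₃⟩ := eventually_atTop.1 (Real.tendsto_log_atTop.eventually_ge_atTop lam)
  refine ⟨max T₁ (max T₂ T₃), lt_max_of_lt_left hT₁, fun T S β hT hM => ?_⟩
  have hTT₁ : T₁ ≤ T := (le_max_left _ _).trans hT
  have hTT₂ : T₂ ≤ T := (le_max_left _ _).trans ((le_max_right _ _).trans hT)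
  have hTT₃ : T₃ ≤ T := (le_max_right _ _).trans ((le_max_right _ _).trans hT)
  have hT10 : 10 < T := lt_of_lt_of_le hT₁ hTT₁
  have hT0 : 0 < T := by linarith
  have hlT : lam ≤ Real.log T := hT₃ T hTT₃
  have hlamT : lam ≤ T := by
    refine hlT.trans ?_
    have := Real.log_le_sub_one_of_pos hT0
    linarith
  have hL0 : 0 < Real.log T := by linarith
  set LL : ℝ := Real.log T ^ 4 with hLL
  have hLL0 : 0 < LL := by positivity
  have hlcm : ∑ m ∈ S, ∑ m' ∈ S, β m * β m' / (Nat.lcm m m' : ℝ) ≤ 2 :=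
    hM.sum_lcm.trans (by linarith)
  have hS := hM.one_le
  have hβ := hM.nonneg
  set α : ℕ → ℝ := fun n => am A B S β n - bn A B n with hα
  have hgM := H41B.measurable_gM A B hS β
  have hgE : Measurable (gE A B) := measurable_gE H38.dx2 A B
  have hws : Measurable fun z : ℂ =>
      ENNReal.ofReal (1 / (1 + κ₀ * lam ^ 2 * z.im ^ 2)) := by
    refine Measurable.ennreal_ofReal (Continuous.measurable ?_)
    have : ∀ z : ℂ, 1 + κ₀ * lam ^ 2 * z.im ^ 2 ≠ 0 := fun z => by positivity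
    fun_prop (disch := exact this _)
  have hgw : Measurable fun z : ℂ => gE A B z *
      ENNReal.ofReal (1 / (1 + κ₀ * lam ^ 2 * z.im ^ 2)) := hgE.mul hws
  -- the strip
  have hstrip : ∫⁻ z in strip a b R T,
      H41B.gM A B S β z * ENNReal.ofReal (1 / (1 + κ₀ * lam ^ 2 * z.im ^ 2)) ≤
      ENNReal.ofReal (ε / (2 * K) * LL) := by
    have h1 : ∫⁻ z in strip a b R T,
        H41B.gM A B S β z * ENNReal.ofReal (1 / (1 + κ₀ * lam ^ 2 * z.im ^ 2)) ≤
        ∫⁻ z in strip a b R T, (2 * (gE A B z *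
          ENNReal.ofReal (1 / (1 + κ₀ * lam ^ 2 * z.im ^ 2))) +
          2 * ENNReal.ofReal (‖ES α z‖ ^ 2)) := by
      refine setLIntegral_mono' (meas_strip a b R T) fun z hz => ?_
      have hpos : 0 < z.re := lt_of_lt_of_le (by positivity) hz.1
      have h2 := diff_le A B hS β hpos
      have h3 : H41B.gM A B S β z = ENNReal.ofReal (‖EM A B S β z‖ ^ 2) := by
        unfold H41B.gM
        rw [if_pos hpos]
        rfl
      have h4 : gE A B z = ENNReal.ofReal (‖EE A B z‖ ^ 2) := by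
        unfold gE
        rw [if_pos hpos]
      have hw0 : 0 ≤ 1 / (1 + κ₀ * lam ^ 2 * z.im ^ 2) := by positivity
      have hw1 : 1 / (1 + κ₀ * lam ^ 2 * z.im ^ 2) ≤ 1 := by
        rw [div_le_one (by positivity)]
        have : 0 ≤ κ₀ * lam ^ 2 * z.im ^ 2 := by positivity
        linarith
      rw [h3, h4, ← ENNReal.ofReal_mul (by positivity), ← ENNReal.ofReal_mul (by positivity)]
      have h5 : (2 : ℝ≥0∞) = ENNReal.ofReal 2 := by simp
      rw [h5, ← ENNReal.ofReal_mul (by norm_num), ← ENNReal.ofReal_mul (by norm_num),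
        ← ENNReal.ofReal_add (by positivity) (by positivity)]
      refine ENNReal.ofReal_le_ofReal ?_
      calc ‖EM A B S β z‖ ^ 2 * (1 / (1 + κ₀ * lam ^ 2 * z.im ^ 2))
          ≤ (2 * ‖EE A B z‖ ^ 2 + 2 * ‖ES α z‖ ^ 2) *
            (1 / (1 + κ₀ * lam ^ 2 * z.im ^ 2)) := mul_le_mul_of_nonneg_right h2 hw0
        _ = 2 * (‖EE A B z‖ ^ 2 * (1 / (1 + κ₀ * lam ^ 2 * z.im ^ 2))) +
            2 * ‖ES α z‖ ^ 2 * (1 / (1 + κ₀ * lam ^ 2 * z.im ^ 2)) := by ring
        _ ≤ 2 * (‖EE A B z‖ ^ 2 * (1 / (1 + κ₀ * lam ^ 2 * z.im ^ 2))) +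
            2 * ‖ES α z‖ ^ 2 := by
            have : 2 * ‖ES α z‖ ^ 2 * (1 / (1 + κ₀ * lam ^ 2 * z.im ^ 2)) ≤
                2 * ‖ES α z‖ ^ 2 := mul_le_of_le_one_right (by positivity) hw1
            linarith
    refine h1.trans ?_
    rw [lintegral_add_left (hgw.const_mul 2), lintegral_const_mul _ hgw,
      lintegral_const_mul' _ _ (by simp)]
    have h2 : ∫⁻ z in strip a b R T, gE A B z *
        ENNReal.ofReal (1 / (1 + κ₀ * lam ^ 2 * z.im ^ 2)) ≤
        ENNReal.ofReal (ε / (8 * K) * LL) := by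
      refine le_trans (le_of_eq ?_) (har T lam hTT₁ hlamH hlT)
      refine setLIntegral_congr_fun (meas_strip a b R T) fun z hz => ?_
      have hpos : 0 < z.re := lt_of_lt_of_le (by positivity) hz.1
      unfold gE
      rw [if_pos hpos, ← ENNReal.ofReal_mul (by positivity)]
      congr 1
      ring
    have h3 : ∫⁻ z in strip a b R T, ENNReal.ofReal (‖ES α z‖ ^ 2) ≤
        ENNReal.ofReal (ε / (8 * K) * LL) := by
      refine (hstr T α hT10.le (grow A B hS hβ)).trans (ENNReal.ofReal_le_ofReal ?_)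
      have h4 := htk T ν η S β hTT₂ hν0 hν1 hη0 hη1 hM
      have h5 : Cs / T * ∑' n : ℕ, α n ^ 2 * Real.exp (-(2 * a / T * n)) ≤
          Cs / T * (Ct * (ν + η + e₂) * T * Real.log T ^ 4) :=
        mul_le_mul_of_nonneg_left h4 (by positivity)
      refine h5.trans ?_
      have h6 : Cs / T * (Ct * (ν + η + e₂) * T * Real.log T ^ 4) = Cs * Ct * (ν + η + e₂) * LL := by
        rw [hLL]
        field_simp
      rw [h6]
      refine mul_le_mul_of_nonneg_right ?_ hLL0.le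
      calc Cs * Ct * (ν + η + e₂) ≤ Cs * Ct * (e₂ + e₂ + e₂) :=
            mul_le_mul_of_nonneg_left (by linarith) (by positivity)
        _ = ε / (8 * K) := by
            rw [he₂]
            field_simp
            ring
    refine (add_le_add (mul_le_mul' le_rfl h2) (mul_le_mul' le_rfl h3)).trans (le_of_eq ?_)
    have h5 : (2 : ℝ≥0∞) = ENNReal.ofReal 2 := by simp
    rw [h5, ← ENNReal.ofReal_mul (by norm_num), ← ENNReal.ofReal_add (by positivity)
      (by positivity)]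
    congr 1
    field_simp
    ring
  -- the inner part
  have hin := chvw hκ hC₂ hchv hgM hT10.le hlam1 hlamT
  rw [← hK] at hin
  have hin2 : ∫⁻ δ in Icc (1 / T) (2 / T), ∫⁻ u in Icc (-(1 / 2) : ℝ) (1 / 2),
      H41B.gM A B S β (zp u δ) * ENNReal.ofReal (Real.exp u / (1 + lam ^ 2 * u ^ 2)) ≤
      ENNReal.ofReal (ε / 2 * LL) := by
    refine hin.trans ((mul_le_mul' le_rfl hstrip).trans (le_of_eq ?_))
    rw [← ENNReal.ofReal_mul hK0.le]
    congr 1
    field_simp
  -- the outer part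
  have hout := H41B.Tail.line_le hb hC.le hS hβ hlcm hT10
  have hmG := H41B.Tail.meas_J0 A B hS β
  have hpt : ∀ δ ∈ Icc (1 / T) (2 / T), ∫⁻ u in Icc (-1 : ℝ) 1,
      ENNReal.ofReal (‖EM A B S β (zp u δ)‖ ^ 2 * Real.exp u / (1 + lam ^ 2 * u ^ 2)) ≤
      ENNReal.ofReal (4 / lam ^ 2 * Real.exp 16) * (∫⁻ u : ℝ, H41B.Tail.GG A B S β (δ, u)) +
      ∫⁻ u in Icc (-(1 / 2) : ℝ) (1 / 2), H41B.gM A B S β (zp u δ) *
        ENNReal.ofReal (Real.exp u / (1 + lam ^ 2 * u ^ 2)) := by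
    intro δ hδ
    have hδ0 : 0 < δ := lt_of_lt_of_le (by positivity) hδ.1
    have hδh : δ ≤ 1 / 2 := by
      refine hδ.2.trans ?_
      rw [div_le_iff₀ hT0]
      linarith
    have hgMe : ∀ u : ℝ, H41B.gM A B S β (zp u δ) =
        ENNReal.ofReal (‖EM A B S β (zp u δ)‖ ^ 2) := by
      intro u
      unfold H41B.gM
      rw [if_pos (zp_re_pos hδ0 hδh)]
      rfl
    have hsub : Icc (-1 : ℝ) 1 ⊆ {u : ℝ | 1 / 2 < |u| ∧ |u| ≤ 1} ∪
        Icc (-(1 / 2) : ℝ) (1 / 2) := by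
      intro u hu
      by_cases h : |u| ≤ 1 / 2
      · exact Or.inr (abs_le.1 h)
      · exact Or.inl ⟨not_le.1 h, abs_le.2 hu⟩
    refine (lintegral_mono_set hsub).trans ((lintegral_union_le _ _ _).trans
      (add_le_add ?_ ?_))
    · have hms1 : MeasurableSet {u : ℝ | 1 / 2 < |u|} :=
        measurableSet_lt measurable_const (by fun_prop)
      have hms2 : MeasurableSet {u : ℝ | |u| ≤ 1} :=
        measurableSet_le (by fun_prop) measurable_const
      have hms : MeasurableSet {u : ℝ | 1 / 2 < |u| ∧ |u| ≤ 1} := hms1.inter hms2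
      rw [← lintegral_const_mul' _ _ ENNReal.ofReal_ne_top]
      refine le_trans ?_ (setLIntegral_le_lintegral {u : ℝ | 1 / 2 < |u| ∧ |u| ≤ 1} _)
      refine setLIntegral_mono' hms fun u hu => ?_
      unfold H41B.Tail.GG
      simp only
      rw [hgMe, ← ENNReal.ofReal_mul (by positivity), ← ENNReal.ofReal_mul (by positivity)]
      refine ENNReal.ofReal_le_ofReal ?_
      have hu2 : 1 / 4 ≤ u ^ 2 := by
        rw [← sq_abs]
        nlinarith [hu.1, abs_nonneg u]
      have e0 : (1 + lam ^ 2 * u ^ 2)⁻¹ ≤ 4 / lam ^ 2 := by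
        rw [inv_eq_one_div, div_le_div_iff₀ (by positivity) (by positivity)]
        nlinarith [mul_le_mul_of_nonneg_left hu2 (sq_nonneg lam)]
      have e1 : Real.exp u ≤ Real.exp 16 * Real.exp (-(16 * |u|) + u) := by
        rw [← Real.exp_add]
        refine Real.exp_le_exp.2 ?_
        linarith [hu.2]
      calc ‖EM A B S β (zp u δ)‖ ^ 2 * Real.exp u / (1 + lam ^ 2 * u ^ 2)
          = ‖EM A B S β (zp u δ)‖ ^ 2 * (Real.exp u * (1 + lam ^ 2 * u ^ 2)⁻¹) := by
            rw [div_eq_mul_inv]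
            ring
        _ ≤ ‖EM A B S β (zp u δ)‖ ^ 2 *
            (Real.exp 16 * Real.exp (-(16 * |u|) + u) * (4 / lam ^ 2)) := by
            refine mul_le_mul_of_nonneg_left ?_ (by positivity)
            exact mul_le_mul e1 e0 (by positivity) (by positivity)
        _ = _ := by ring
    · refine setLIntegral_mono' measurableSet_Icc fun u _ => ?_
      rw [hgMe, ← ENNReal.ofReal_mul (by positivity)]
      refine ENNReal.ofReal_le_ofReal (le_of_eq ?_)
      ring
  refine (setLIntegral_mono' measurableSet_Icc hpt).trans ?_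
  have hmG2 : Measurable fun δ : ℝ => ∫⁻ u : ℝ, H41B.Tail.GG A B S β (δ, u) :=
    hmG.lintegral_prod_right'
  rw [lintegral_add_left (hmG2.const_mul _), lintegral_const_mul _ hmG2]
  refine (add_le_add (mul_le_mul' le_rfl hout) hin2).trans ?_
  rw [← ENNReal.ofReal_mul (by positivity), ← ENNReal.ofReal_add (by positivity) (by positivity)]
  refine ENNReal.ofReal_le_ofReal ?_
  have e1 : 4 / lam ^ 2 * Real.exp 16 * CL ≤ ε / 4 := by
    rw [div_le_iff₀ hε] at hlamC
    have e2 : 16 * Real.exp 16 * CL ≤ lam ^ 2 * ε := by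
      refine hlamC.trans ?_
      refine mul_le_mul_of_nonneg_right ?_ hε.le
      nlinarith
    rw [div_mul_eq_mul_div, div_mul_eq_mul_div, div_le_div_iff₀ (by positivity) (by norm_num)]
    nlinarith
  have e3 : 4 / lam ^ 2 * Real.exp 16 * ((C ^ 2 * 2 * 34992 * Real.exp 20) * Real.log T ^ 4 *
      ∑' k : ℤ, Real.exp (-|(k : ℝ)|)) = 4 / lam ^ 2 * Real.exp 16 * CL * LL := by
    rw [hCL, hLL]
    ring
  rw [e3]
  have e4 := mul_le_mul_of_nonneg_right e1 hLL0.le
  have e5 : 0 ≤ ε * LL := by positivity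
  linarith

end Pool.Agent.Lib.MP_6bc78b_nt.GP.H6.Lowb
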