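import Pool.Agent.Lib.MP_6bc78b_nt.GP.H27.ArekAll
import Pool.Agent.Lib.MP_6bc78b_nt.GP.H19.Sclt
import Pool.Agent.Lib.MP_6bc78b_nt.GP.H57.Tkbt
import Pool.Agent.Lib.MP_6bc78b_nt.GP.H61.RowCont
import Pool.Agent.Lib.MP_6bc78b_nt.GP.H41.Avgt
import Pool.Agent.Lib.MP_6bc78b_nt.GP.H34.Tailb
import Pool.Agent.Lib.MP_6bc78b_nt.GP.H10.Splb
import Pool.Agent.Lib.MP_6bc78b_nt.GP.H70.Pieceb
import Pool.Agent.Lib.MP_6bc78b_nt.GP.H94.Fart
import Pool.Agent.Lib.MP_6bc78b_nt.GP.H18.Maint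
import Pool.Agent.Lib.MP_6bc78b_nt.GP.H66.Maint1
import Pool.Agent.Lib.MP_6bc78b_nt.GP.H90.MainT2
import Pool.Agent.Lib.MP_6bc78b_nt.GP.H41.Zdt
import Pool.Agent.Lib.MP_6bc78b_nt.GP.H17.Avb
import Pool.Agent.Lib.MP_6bc78b_nt.GP.H62.Ert
import Pool.Agent.Lib.MP_6bc78b_nt.GP.H6.Lowt
import Pool.Agent.Lib.MP_6bc78b_nt.GP.H6.Last10t
import Pool.Agent.Lib.MP_6bc78b_nt.GP.H92.Chb10t
import Pool.Agent.Lib.MP_6bc78b_nt.GP.H94.Fin10t
import Pool.Agent.Lib.MP_6bc78b_nt.MS.P5.HM.Final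

/-! Project GP10: the final theorem, windows of bounded length. -/

set_option autoImplicit false

namespace Pool.Agent.Lib.MP_6bc78b_nt.GP.H6

open Pool.Agent.Lib.MP_6bc78b_nt Pool.Agent.Lib.MP_6bc78b_nt.GP.G7
  Pool.Agent.Lib.MP_6bc78b_nt.GP.G10

/-- All rows together. -/
theorem count10t : Count10TStatement := by
  have dx2 : DX2Statement := H38.dx2
  have gamc : GAMCStatement := H37.gamc
  have etr : ETRStatement := H91.etr dx2
  have low : LOWTStatement := Lowb.lowt H27A.arek0 H76.chv G7.strx G10.T57.tkbt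
  have avg : AVGTStatement := H41B.avgt low H41B.bandb H34L.tailb
  have er : ERTStatement := H62E.ert avg H10F.splb H70B.pieceb H13.plc etr
  have con : CONTStatement := H61T.cont H82.gami dx2 gamc
  have main : MAINTStatement := H18T.maint (H66T.maint1 H35.feq omd dx2) H90.maint2 omd G7.basx
  exact H94T.fin10t (H92C.chb10t H79.dx1 H19S.sclt er con (H17.avb dx2) main
    H94F.fart (H41Z.zdt MS.P5.HM.zduF) gamc)

/-- The final theorem. -/
theorem window10t (hRH : RiemannHypothesis) :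
    ∀ ε : ℝ, 0 < ε → ∃ h₀ : ℝ, 1 < h₀ ∧ ∀ T : ℝ,
      MeasureTheory.volume {t : ℝ | 0 ≤ t ∧ t ≤ T ∧ ∃ h : ℝ, h₀ ≤ h ∧ h ≤ T ∧
        (({γ : ℝ | t < γ ∧ γ < t + h ∧ hardyZ γ = 0 ∧
          Real.log T * Real.exp (Real.sqrt
            (Real.log (Real.log T) * Real.log (Real.log (Real.log T)))) ≤
              |deriv hardyZ γ|}.ncard : ℕ) : ℝ) ≤ h / h₀} ≤
      ENNReal.ofReal (ε * T) :=
  last10t count10t hRH

end Pool.Agent.Lib.MP_6bc78b_nt.GP.H6
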