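import Pool.Agent.Lib.MP_6bc78b_nt.GP.H97.Zcel
import Pool.Agent.Lib.MP_6bc78b_nt.GP.H35.Zpb
import Pool.Agent.Lib.MP_6bc78b_nt.GP.H2.Znegl
import Pool.Agent.Lib.MP_6bc78b_nt.GP.H43.Defs11t

/-! Project GP11: row TSDL by the transform. -/

set_option autoImplicit false

open Complex Filter Topology MeasureTheory Set
open scoped ENNReal

namespace Pool.Agent.Lib.MP_6bc78b_nt.GP.H6Z

open Pool.Agent.Lib.MP_6bc78b_nt.MS Pool.Agent.Lib.MP_6bc78b_nt.MS.P1
open Pool.Agent.Lib.MP_6bc78b_nt.GP Pool.Agent.Lib.MP_6bc78b_nt.GP.G7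
open Pool.Agent.Lib.MP_6bc78b_nt.GP.G10 Pool.Agent.Lib.MP_6bc78b_nt.GP.G11
open Pool.Agent.Lib.MP_6bc78b_nt.GP.G11Z

theorem pow_ev : ∀ᶠ T : ℝ in atTop, 12 * Real.log T ^ (2 / 5 : ℝ) ≤ Real.log T := by
  have h2 := (tendsto_rpow_atTop (show (0 : ℝ) < 3 / 5 by norm_num)).eventually_ge_atTop 12
  have h1 : ∀ᶠ x : ℝ in atTop, 12 * x ^ (2 / 5 : ℝ) ≤ x := by
    filter_upwards [h2, eventually_ge_atTop (1 : ℝ)] with x hx hx1
    have hx0 : 0 < x := by linarith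
    calc 12 * x ^ (2 / 5 : ℝ) ≤ x ^ (3 / 5 : ℝ) * x ^ (2 / 5 : ℝ) :=
          mul_le_mul_of_nonneg_right hx (by positivity)
      _ = x ^ (3 / 5 + 2 / 5 : ℝ) := (Real.rpow_add hx0 _ _).symm
      _ = x := by norm_num
  exact Real.tendsto_log_atTop.eventually h1

theorem tsdl (hM : ZMELStatement) (hP : H35Z.ZPOSLStatement) (hcel : CELStatement)
    (hplc : PLCStatement) (hQ : QFNStatement) : TSDLStatement := by
  intro _
  obtain ⟨C1, T1, hC1, hT1, h1⟩ := hP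
  obtain ⟨T2, hT2⟩ := pow_ev.exists_forall_of_atTop
  refine ⟨8 * Real.pi * Real.exp 16 * (C1 + 12000 * 32), max (max T1 T2) (max 11 (Real.exp 1)),
    by positivity, lt_of_lt_of_le hT1 ((le_max_left _ _).trans (le_max_left _ _)),
    fun T S a hT hS F hF => ?_⟩
  have hTa : T1 ≤ T := ((le_max_left _ _).trans (le_max_left _ _)).trans hT
  have hTb : T2 ≤ T := ((le_max_right _ _).trans (le_max_left _ _)).trans hT
  have hT11 : 11 ≤ T := ((le_max_left _ _).trans (le_max_right _ _)).trans hT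
  have hTc : Real.exp 1 ≤ T := ((le_max_right _ _).trans (le_max_right _ _)).trans hT
  have hT10 : 10 < T := by linarith
  have hT0 : 0 < T := by linarith
  have hS1 : ∀ m ∈ S, 1 ≤ m := fun m hm => (hS m hm).1
  have hL1 : 1 ≤ Real.log T := by
    rw [Real.le_log_iff_exp_le hT0]
    exact hTc
  have hq := hQ S a hS1
  have hR : 0 ≤ Rf S a := hq.1.trans hq.2
  set L := Real.log T with hL
  set N := Real.exp (L ^ (2 / 5 : ℝ)) with hN
  have h12 : 12 * L ^ (2 / 5 : ℝ) ≤ L := hT2 T hTb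
  have hp0 : 0 ≤ L ^ (2 / 5 : ℝ) := by positivity
  have hN1 : 1 ≤ N := Real.one_le_exp hp0
  have hN6 : N ^ 6 ≤ Real.sqrt T := by
    refine Real.le_sqrt_of_sq_le ?_
    rw [hN, ← pow_mul, ← Real.exp_nat_mul, ← Real.exp_log hT0, ← hL]
    refine Real.exp_le_exp.2 ?_
    push_cast
    linarith
  have hNl : Real.log N = L ^ (2 / 5 : ℝ) := Real.log_exp _
  have hl5 : L * (1 + Real.log N) ^ 5 ≤ 32 * L ^ 3 := by
    rw [hNl]
    have e1 : 1 ≤ L ^ (2 / 5 : ℝ) := Real.one_le_rpow hL1 (by norm_num)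
    have e2 : (L ^ (2 / 5 : ℝ)) ^ 5 = L ^ 2 := by
      rw [← Real.rpow_natCast, ← Real.rpow_mul (by linarith), ← Real.rpow_natCast]
      norm_num
    have e3 : (1 + L ^ (2 / 5 : ℝ)) ^ 5 ≤ (2 * L ^ (2 / 5 : ℝ)) ^ 5 :=
      pow_le_pow_left₀ (by positivity) (by linarith) 5
    calc L * (1 + L ^ (2 / 5 : ℝ)) ^ 5 ≤ L * (2 * L ^ (2 / 5 : ℝ)) ^ 5 :=
          mul_le_mul_of_nonneg_left e3 (by linarith)
      _ = 32 * L ^ 3 := by
          rw [mul_pow, e2]
          ring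
  set M := (C1 + 12000 * 32) * (L ^ 4 * Rf S a) with hMd
  have hE : ∫⁻ δ in Icc (1 / T) (2 / T), ∫⁻ u : ℝ,
      ENNReal.ofReal (‖Ph S a (zr u δ)‖ ^ 2 * Real.exp u * wt T u) ≤ ENNReal.ofReal M := by
    have h3 : ∀ δ : ℝ, ∫⁻ u : ℝ, ENNReal.ofReal (‖Ph S a (zr u δ)‖ ^ 2 * Real.exp u * wt T u) ≤
        (∫⁻ u in Ici (0 : ℝ), ENNReal.ofReal (‖Ph S a (zr u δ)‖ ^ 2 * Real.exp u * wt T u)) +
        ∫⁻ u in Iic (0 : ℝ), ENNReal.ofReal (‖Ph S a (zr u δ)‖ ^ 2 * Real.exp u * wt T u) := by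
      intro δ
      rw [← setLIntegral_univ]
      have : (Set.univ : Set ℝ) = Ici 0 ∪ Iic 0 := by
        ext x
        simp
      rw [this]
      exact lintegral_union_le _ _ _
    have h4 : ∫⁻ δ in Icc (1 / T) (2 / T), ∫⁻ u : ℝ,
        ENNReal.ofReal (‖Ph S a (zr u δ)‖ ^ 2 * Real.exp u * wt T u) ≤
        ∫⁻ δ in Icc (1 / T) (2 / T),
          ((∫⁻ u in Ici (0 : ℝ), ENNReal.ofReal (‖Ph S a (zr u δ)‖ ^ 2 * Real.exp u * wt T u)) +
          ENNReal.ofReal (12000 * T * (32 * L ^ 3) * Rf S a)) := by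
      refine setLIntegral_mono' measurableSet_Icc fun δ hδ => ?_
      refine (h3 δ).trans (add_le_add_right ?_ _)
      refine (zneg_len hT11 hL1 hδ.1 hδ.2 hN1 hN6 hS).trans (ENNReal.ofReal_le_ofReal ?_)
      exact mul_le_mul_of_nonneg_right (mul_le_mul_of_nonneg_left hl5 (by positivity)) hR
    refine h4.trans ?_
    rw [lintegral_add_right _ measurable_const, setLIntegral_const, Real.volume_Icc,
      ← ENNReal.ofReal_mul (by positivity)]
    refine (add_le_add_left (h1 T S a hTa hS1) _).trans ?_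
    rw [← ENNReal.ofReal_add (by positivity) (by
      have : 0 ≤ 2 / T - 1 / T := by
        rw [show 2 / T - 1 / T = 1 / T by ring]
        positivity
      positivity)]
    refine ENNReal.ofReal_le_ofReal ?_
    have h5 : 12000 * T * (32 * L ^ 3) * Rf S a * (2 / T - 1 / T) =
        12000 * 32 * (L ^ 3 * Rf S a) := by
      field_simp
      ring
    have h6 : L ^ 3 * Rf S a ≤ L ^ 4 * Rf S a :=
      mul_le_mul_of_nonneg_right (pow_le_pow_right₀ hL1 (by norm_num)) hR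
    rw [h5, hMd]
    calc C1 * L ^ 4 * Rf S a + 12000 * 32 * (L ^ 3 * Rf S a)
        ≤ C1 * L ^ 4 * Rf S a + 12000 * 32 * (L ^ 4 * Rf S a) := by linarith
      _ = _ := by ring
  have h6 := H97Z.zcore hM hcel hplc hT10 (by positivity) hS1 hE F hF
  refine h6.trans (le_of_eq ?_)
  rw [hMd]
  ring

end Pool.Agent.Lib.MP_6bc78b_nt.GP.H6Z
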