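import Pool.Agent.Lib.MP_6bc78b_nt.GP.H6.Tsd11
import Pool.Agent.Lib.MP_6bc78b_nt.GP.H6.Tsdl11
import Pool.Agent.Lib.MP_6bc78b_nt.GP.H19.Scl2t
import Pool.Agent.Lib.MP_6bc78b_nt.GP.H91.Near5
import Pool.Agent.Lib.MP_6bc78b_nt.GP.H92.Chb11t
import Pool.Agent.Lib.MP_6bc78b_nt.GP.H62.Count11t
import Pool.Agent.Lib.MP_6bc78b_nt.GP.H62.Last11t
import Pool.Agent.Lib.MP_6bc78b_nt.GP.H13.Fam
import Pool.Agent.Lib.MP_6bc78b_nt.GP.H71.Typ11
import Pool.Agent.Lib.MP_6bc78b_nt.GP.H58.Scg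

/-! Project GP11: the final theorem, many simple zeros in windows of bounded length. -/

set_option autoImplicit false

namespace Pool.Agent.Lib.MP_6bc78b_nt.GP.H6

open Pool.Agent.Lib.MP_6bc78b_nt Pool.Agent.Lib.MP_6bc78b_nt.GP.G7
  Pool.Agent.Lib.MP_6bc78b_nt.GP.G10 Pool.Agent.Lib.MP_6bc78b_nt.GP.G11

/-- Row TSDL. -/
theorem tsdl11 : TSDLStatement :=
  H6Z.tsdl H37Z.zmel H35Z.zposl H91E.cel H13.plc H94N.qfn

/-- All rows together. -/
theorem count11t : Count11TStatement := by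
  have dx2 : DX2Statement := H38.dx2
  have gamc : GAMCStatement := H37.gamc
  have etr : ETRStatement := H91.etr dx2
  have low : LOWTStatement := Lowb.lowt H27A.arek0 H76.chv G7.strx G10.T57.tkbt
  have avg : AVGTStatement := H41B.avgt low H41B.bandb H34L.tailb
  have er : ERTStatement := H62E.ert avg H10F.splb H70B.pieceb H13.plc etr
  have con : CONTStatement := H61T.cont H82.gami dx2 gamc
  have main : MAINTStatement := H18T.maint (H66T.maint1 H35.feq omd dx2) H90.maint2 omd G7.basx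
  have near : NEARTStatement := H91N.neart H19S.scl2t H79.dx1 er con (H17.avb dx2) main
    H94F.fart (H41Z.zdt MS.P5.HM.zduF) gamc etr
  have fam : FAMStatement := H13F.fam H94N.qfn typ71 H58G.scg
  exact H62N.count11t (H92C.chb11t near tsd11 tsdl11 fam)

/-- The final theorem. -/
theorem window11t (hRH : RiemannHypothesis) :
    ∀ ε : ℝ, 0 < ε → ∃ h₀ : ℝ, 1 ≤ h₀ ∧ ∀ A : ℝ, 0 < A → ∃ T₀ : ℝ, 16 < T₀ ∧
      ∀ T : ℝ, T₀ ≤ T →
      MeasureTheory.volume {t : ℝ | 0 ≤ t ∧ t ≤ T ∧ ∃ h : ℝ, h₀ ≤ h ∧ h ≤ T ∧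
        (({γ : ℝ | t < γ ∧ γ < t + h ∧ hardyZ γ = 0 ∧
          Real.log T * Real.exp (Real.sqrt
            (Real.log (Real.log T) * Real.log (Real.log (Real.log T)))) ≤
              |deriv hardyZ γ|}.ncard : ℕ) : ℝ) ≤ A * h} ≤
      ENNReal.ofReal (ε * T) := by
  intro ε hε
  obtain ⟨h₀, hh, H⟩ := H62N.last11t count11t hRH ε hε
  refine ⟨h₀, hh, fun A hA => ?_⟩
  obtain ⟨T₀, _, H⟩ := H A hA
  exact ⟨max T₀ 17, lt_of_lt_of_le (by norm_num) (le_max_right _ _),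
    fun T hT => H T ((le_max_left _ _).trans hT)⟩

end Pool.Agent.Lib.MP_6bc78b_nt.GP.H6
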