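import Pool.Agent.Lib.MP_6bc78b_nt.GP.H6.Final10t
import Pool.Agent.Lib.MP_6bc78b_nt.GP.H97.Zcel
import Pool.Agent.Lib.MP_6bc78b_nt.GP.H37.Zmel
import Pool.Agent.Lib.MP_6bc78b_nt.GP.H94.Zpos
import Pool.Agent.Lib.MP_6bc78b_nt.GP.H2.Znegl

/-! Project GP11: the twisted mean square of `ζ'` over the zeros. -/

set_option autoImplicit false

namespace Pool.Agent.Lib.MP_6bc78b_nt.GP.H6

open Pool.Agent.Lib.MP_6bc78b_nt Pool.Agent.Lib.MP_6bc78b_nt.GP.G7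
  Pool.Agent.Lib.MP_6bc78b_nt.GP.G10 Pool.Agent.Lib.MP_6bc78b_nt.GP.G11

/-- Row TSD. -/
theorem tsd11 : TSDStatement :=
  H97Z.tsd H37Z.zmel H94Z.zpos G11Z.zneg H91E.cel H13.plc H94N.qfn

end Pool.Agent.Lib.MP_6bc78b_nt.GP.H6
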